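import Mathlib

/-! A forward/backward counting lemma for orderings of a finite set. -/

set_option autoImplicit false

open Finset

namespace Pool.Agent.V7H68.Ham

variable {U : Type*} [Fintype U] [DecidableEq U]

/-- lists of length `i` -/
def Ls (U : Type*) [Fintype U] [DecidableEq U] : ℕ → Finset (List U)
  | 0 => {[]}
  | i + 1 => ((univ : Finset U) ×ˢ Ls U i).image (fun p => p.1 :: p.2)

lemma mem_Ls {i : ℕ} {l : List U} : l ∈ Ls U i ↔ l.length = i := by
  induction i generalizing l with
  | zero => simp [Ls]
  | succ i ih =>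
    simp only [Ls, mem_image, mem_product, mem_univ, true_and, Prod.exists]
    constructor
    · rintro ⟨a, b, hb, rfl⟩
      simp [ih.1 hb]
    · intro h
      cases l with
      | nil => simp at h
      | cons a t => exact ⟨a, t, ih.2 (by simpa using h), rfl⟩

lemma sum_Ls_succ {M : Type*} [AddCommMonoid M] (i : ℕ) (f : List U → M) :
    ∑ l ∈ Ls U (i + 1), f l = ∑ t ∈ Ls U i, ∑ w : U, f (w :: t) := by
  rw [Ls, sum_image, sum_product_right]
  rintro ⟨a, b⟩ _ ⟨c, d⟩ _ h
  simpa using h

/-- The step rule: written backwards, each new member `w` is chosen, together with the previous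
member `v`, from the set of pairs attached to the set of members met so far. -/
def Good (S : Finset U → Finset (U × U)) : List U → Prop
  | [] => True
  | [_] => True
  | w :: v :: t => (v, w) ∈ S (v :: t).toFinset ∧ Good S (v :: t)

/-- number of pairs with first member `u` -/
def dg (S : Finset U → Finset (U × U)) (A : Finset U) (u : U) : ℕ := #{p ∈ S A | p.1 = u}

/-- forward weight -/
noncomputable def fw (S : Finset U → Finset (U × U)) : List U → ℝ
  | [] => 1
  | [_] => 1 / (Fintype.card U : ℝ)
  | w :: v :: t => fw S (v :: t) *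
      (if (v, w) ∈ S (v :: t).toFinset then 1 / (dg S (v :: t).toFinset v : ℝ) else 0)

/-- backward probabilities -/
noncomputable def pr (S : Finset U → Finset (U × U)) (A : Finset U) (w : U) : ℝ :=
  if A = univ then 1 / (Fintype.card U : ℝ) else (dg S A w : ℝ) / (#(S A) : ℝ)

/-- backward weight -/
noncomputable def bw (S : Finset U → Finset (U × U)) : List U → ℝ
  | [] => 1
  | w :: t => bw S t * pr S (w :: t).toFinset w

lemma fw_nonneg (S : Finset U → Finset (U × U)) (l : List U) : 0 ≤ fw S l := by
  induction l with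
  | nil => simp [fw]
  | cons w t ih =>
    cases t with
    | nil => simp [fw]
    | cons v t =>
      rw [fw]
      apply mul_nonneg ih
      split_ifs <;> positivity

lemma pr_nonneg (S : Finset U → Finset (U × U)) (A : Finset U) (w : U) : 0 ≤ pr S A w := by
  rw [pr]; split_ifs <;> positivity

lemma bw_nonneg (S : Finset U → Finset (U × U)) (l : List U) : 0 ≤ bw S l := by
  induction l with
  | nil => simp [bw]
  | cons w t ih => exact mul_nonneg ih (pr_nonneg _ _ _)

lemma fw_step (S : Finset U → Finset (U × U)) (v : U) (t : List U) :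
    ∑ w : U, fw S (w :: v :: t) ≤ fw S (v :: t) := by
  simp only [fw]
  rw [← mul_sum]
  apply mul_le_of_le_one_right (fw_nonneg _ _)
  rw [← sum_filter, sum_const, nsmul_eq_mul]
  have h : #{w : U | (v, w) ∈ S (v :: t).toFinset} ≤ dg S (v :: t).toFinset v := by
    rw [dg]
    apply card_le_card_of_injOn (fun w => (v, w))
    · intro w hw
      simp only [coe_filter, mem_univ, true_and, Set.mem_ofPred_eq] at hw
      rw [coe_filter, Set.mem_ofPred_eq]
      exact ⟨hw, rfl⟩
    · intro a _ b _ hab
      simpa using hab
  rcases Nat.eq_zero_or_pos (dg S (v :: t).toFinset v) with h0 | h0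
  · rw [h0]; simp
  · rw [mul_one_div, div_le_one (by exact_mod_cast h0)]
    exact_mod_cast h

lemma sum_fw (S : Finset U → Finset (U × U)) (i : ℕ) : ∑ l ∈ Ls U i, fw S l ≤ 1 := by
  induction i with
  | zero => simp [Ls, fw]
  | succ i ih =>
    rw [sum_Ls_succ]
    cases i with
    | zero =>
      simp only [Ls, sum_singleton, fw, sum_const, card_univ, nsmul_eq_mul, mul_one_div]
      exact div_self_le_one _
    | succ i =>
      refine le_trans (sum_le_sum fun l hl => ?_) ih
      rw [mem_Ls] at hl
      cases l with
      | nil => simp at hl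
      | cons v t => exact fw_step S v t

lemma sum_pr (S : Finset U → Finset (U × U)) (A : Finset U) : ∑ w ∈ A, pr S A w ≤ 1 := by
  by_cases hA : A = univ
  · subst hA
    simp only [pr, if_true, sum_const, card_univ, nsmul_eq_mul, mul_one_div]
    exact div_self_le_one _
  · simp only [pr, if_neg hA]
    rw [← sum_div]
    apply div_le_one_of_le₀ _ (Nat.cast_nonneg _)
    rw [← Nat.cast_sum]
    have : ∑ w ∈ A, dg S A w ≤ #(S A) := by
      simp only [dg]
      rw [← card_biUnion]
      · apply card_le_card
        intro p hp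
        simp only [mem_biUnion, mem_filter] at hp
        obtain ⟨_, _, h, _⟩ := hp
        exact h
      · intro a _ b _ hab
        rw [Function.onFun, disjoint_left]
        intro p hp hq
        simp only [mem_filter] at hp hq
        exact hab (hp.2.symm.trans hq.2)
    exact_mod_cast this

lemma sum_bw (S : Finset U → Finset (U × U)) (i : ℕ) (A : Finset U) (hA : #A = i) :
    ∑ l ∈ Ls U i with l.toFinset = A, bw S l ≤ 1 := by
  induction i generalizing A with
  | zero =>
    refine le_trans (sum_le_sum_of_subset_of_nonneg (filter_subset _ _)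
      fun l _ _ => bw_nonneg _ _) ?_
    simp [Ls, bw]
  | succ i ih =>
    rw [sum_filter, sum_Ls_succ, sum_comm]
    have key : ∀ w : U, ∑ t ∈ Ls U i, (if (w :: t).toFinset = A then bw S (w :: t) else 0) ≤
        if w ∈ A then pr S A w else 0 := by
      intro w
      by_cases hw : w ∈ A
      · rw [if_pos hw]
        have h1 : #(A.erase w) = i := by rw [card_erase_of_mem hw, hA]; rfl
        have h2 := ih (A.erase w) h1
        have h3 : ∑ t ∈ Ls U i, (if (w :: t).toFinset = A then bw S (w :: t) else 0) ≤
            ∑ t ∈ Ls U i, (if t.toFinset = A.erase w then bw S t * pr S A w else 0) := by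
          apply sum_le_sum
          intro t ht
          rw [mem_Ls] at ht
          split_ifs with h4 h5 h5
          · rw [bw, h4]
          · exfalso
            apply h5
            have hle : #t.toFinset ≤ i := ht ▸ List.toFinset_card_le t
            rw [List.toFinset_cons] at h4
            have h6 : A.erase w ⊆ t.toFinset := by
              rw [← h4]
              exact (erase_insert_subset _ _)
            exact (eq_of_subset_of_card_le h6 (by rw [h1]; exact hle)).symm
          · exact mul_nonneg (bw_nonneg _ _) (pr_nonneg _ _ _)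
          · exact le_refl _
        refine h3.trans ?_
        rw [← sum_filter, ← sum_mul]
        calc _ ≤ 1 * pr S A w := mul_le_mul_of_nonneg_right h2 (pr_nonneg _ _ _)
          _ = _ := one_mul _
      · rw [if_neg hw]
        apply le_of_eq
        apply sum_eq_zero
        intro t _
        rw [if_neg]
        intro h
        apply hw
        rw [← h]
        simp
    refine (sum_le_sum fun w _ => key w).trans ?_
    rw [← sum_filter]
    have : (univ.filter fun w => w ∈ A) = A := by ext; simp
    rw [this]
    exact sum_pr S A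

lemma prod_lower (S : Finset U → Finset (U × U)) (k : ℕ)
    (hS : ∀ A, #(S A) ≤ k) (w : U) (t : List U) (hl : (w :: t).Nodup) (hg : Good S (w :: t)) :
    1 / (Fintype.card U * (k : ℝ) ^ t.length) ≤ fw S (w :: t) * bw S t := by
  induction t generalizing w with
  | nil => simp [fw, bw]
  | cons v t ih =>
    have h1 := ih v (List.nodup_cons.1 hl).2 hg.2
    have hm := hg.1
    rw [fw, bw, if_pos hm]
    have hne : (v :: t).toFinset ≠ univ := by
      intro h
      have : w ∈ (v :: t).toFinset := by rw [h]; exact mem_univ _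
      rw [List.mem_toFinset] at this
      exact (List.nodup_cons.1 hl).1 this
    rw [pr, if_neg hne]
    have hd : 0 < dg S (v :: t).toFinset v := by
      rw [dg, card_pos]
      exact ⟨(v, w), mem_filter.2 ⟨hm, rfl⟩⟩
    have hc : 0 < #(S (v :: t).toFinset) := card_pos.2 ⟨_, hm⟩
    have hd' : (0 : ℝ) < dg S (v :: t).toFinset v := by exact_mod_cast hd
    have hc' : (0 : ℝ) < #(S (v :: t).toFinset) := by exact_mod_cast hc
    have e : fw S (v :: t) * (1 / (dg S (v :: t).toFinset v : ℝ)) *
        (bw S t * ((dg S (v :: t).toFinset v : ℝ) / (#(S (v :: t).toFinset) : ℝ))) =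
        (fw S (v :: t) * bw S t) * (1 / (#(S (v :: t).toFinset) : ℝ)) := by
      field_simp
    rw [e]
    have hk : (#(S (v :: t).toFinset) : ℝ) ≤ k := by exact_mod_cast hS _
    have h2 : 1 / (Fintype.card U * (k : ℝ) ^ (v :: t).length) =
        1 / (Fintype.card U * (k : ℝ) ^ t.length) * (1 / (k : ℝ)) := by
      rw [List.length_cons, pow_succ]
      rw [← one_div_mul_one_div_rev, ← one_div_mul_one_div_rev]
      rw [← one_div_mul_one_div_rev]
      ring
    rw [h2]
    apply mul_le_mul h1 _ (by positivity) (le_trans (by positivity) h1)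
    exact one_div_le_one_div_of_le hc' hk

/-- **Counting lemma.** At most `N * k^((N-1)/2)` orderings of an `N`-element set obey a step rule
all of whose sets have at most `k` members. -/
theorem card_good (h0 : 0 < Fintype.card U)
    (S : Finset U → Finset (U × U)) (k : ℕ) (hS : ∀ A, #(S A) ≤ k)
    (B : Finset (List U)) (hB : ∀ l ∈ B, l.Nodup ∧ l.length = Fintype.card U ∧ Good S l) :
    (#B) ^ 2 ≤ (Fintype.card U) ^ 2 * k ^ (Fintype.card U - 1) := by
  set N := Fintype.card U with hN
  have hN' : (0 : ℝ) < N := by exact_mod_cast h0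
  rcases B.eq_empty_or_nonempty with rfl | hne
  · simp
  -- every member has product of the two weights at least 1 / (N^2 k^(N-1))
  have huniv : ∀ l ∈ B, l.toFinset = univ := by
    intro l hl
    obtain ⟨h1, h2, _⟩ := hB l hl
    rw [← card_eq_iff_eq_univ, List.toFinset_card_of_nodup h1, h2]
  have key : ∀ l ∈ B, 1 / ((N : ℝ) ^ 2 * (k : ℝ) ^ (N - 1)) ≤ fw S l * bw S l := by
    intro l hl
    obtain ⟨h1, h2, h3⟩ := hB l hl
    cases l with
    | nil => simp at h2; omega
    | cons w t =>
      have h4 := prod_lower S k hS w t h1 h3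
      have h5 : t.length = N - 1 := by simp at h2; omega
      rw [h5] at h4
      rw [bw, pr, if_pos (huniv _ hl)]
      have h6 : fw S (w :: t) * (bw S t * (1 / (N : ℝ))) =
          (fw S (w :: t) * bw S t) * (1 / (N : ℝ)) := by ring
      rw [← hN, h6]
      have h7 : 1 / ((N : ℝ) ^ 2 * (k : ℝ) ^ (N - 1)) =
          1 / (N * (k : ℝ) ^ (N - 1)) * (1 / (N : ℝ)) := by
        rw [one_div_mul_one_div_rev]; congr 1; ring
      rw [h7]
      exact mul_le_mul_of_nonneg_right h4 (by positivity)
  -- the set of pairs is nonempty, so k > 0 or N = 1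
  set c : ℝ := Real.sqrt (1 / ((N : ℝ) ^ 2 * (k : ℝ) ^ (N - 1))) with hc
  have hsum : (#B : ℝ) * c ≤ 1 := by
    have h1 : ∀ l ∈ B, c ≤ (fw S l + bw S l) / 2 := by
      intro l hl
      have h2 := key l hl
      have ha := fw_nonneg S l
      have hb := bw_nonneg S l
      rw [hc]
      apply Real.sqrt_le_iff.2
      constructor
      · positivity
      · nlinarith [sq_nonneg (fw S l - bw S l)]
    have h2 : ∑ l ∈ B, fw S l ≤ 1 := by
      refine le_trans (sum_le_sum_of_subset_of_nonneg ?_ fun l _ _ => fw_nonneg _ _) (sum_fw S N)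
      intro l hl
      rw [mem_Ls]
      exact (hB l hl).2.1
    have h3 : ∑ l ∈ B, bw S l ≤ 1 := by
      refine le_trans (sum_le_sum_of_subset_of_nonneg ?_ fun l _ _ => bw_nonneg _ _)
        (sum_bw S N univ (by rw [card_univ]))
      intro l hl
      rw [mem_filter, mem_Ls]
      exact ⟨(hB l hl).2.1, huniv l hl⟩
    calc (#B : ℝ) * c = ∑ l ∈ B, c := by rw [sum_const, nsmul_eq_mul]
      _ ≤ ∑ l ∈ B, (fw S l + bw S l) / 2 := sum_le_sum h1
      _ = (∑ l ∈ B, fw S l + ∑ l ∈ B, bw S l) / 2 := by
          rw [← sum_div, sum_add_distrib]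
      _ ≤ 1 := by linarith
  have hkpos : 0 < (k : ℝ) ^ (N - 1) := by
    rcases Nat.eq_zero_or_pos (N - 1) with h | h
    · rw [h]; simp
    · have : 0 < k := by
        obtain ⟨l, hl⟩ := hne
        obtain ⟨h1, h2, h3⟩ := hB l hl
        match l, h2, h3 with
        | [], h2, _ => simp at h2; omega
        | [_], h2, _ => simp at h2; omega
        | w :: v :: t, _, h3 =>
          exact lt_of_lt_of_le (card_pos.2 ⟨_, h3.1⟩) (hS _)
      positivity
  have hD : (0 : ℝ) < (N : ℝ) ^ 2 * (k : ℝ) ^ (N - 1) := by positivity
  have hfin : ((#B : ℝ)) ^ 2 ≤ (N : ℝ) ^ 2 * (k : ℝ) ^ (N - 1) := by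
    have h1 : ((#B : ℝ) * c) ^ 2 ≤ 1 := by
      have : (0 : ℝ) ≤ (#B : ℝ) * c := by positivity
      nlinarith
    rw [mul_pow, hc, Real.sq_sqrt (by positivity), mul_one_div, div_le_one hD] at h1
    exact h1
  exact_mod_cast hfin

end Pool.Agent.V7H68.Ham
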