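import Mathlib

/-! Hamilton cycles as lists, and the two kinds of test graphs. -/

set_option autoImplicit false

open Finset

namespace Pool.Agent.V7H68.Ham

/-- the `n(n-1)/2` input variables: the potential edges of a graph on `Fin n` -/
abbrev Edge (n : ℕ) := {p : Fin n × Fin n // p.1 < p.2}

/-- the graph with edge indicator `x` -/
def graphOf {n : ℕ} (x : Edge n → Bool) : SimpleGraph (Fin n) :=
  SimpleGraph.fromRel (fun i j : Fin n => ∃ h : i < j, x ⟨(i, j), h⟩ = true)

/-- the edge indicator of a symmetric relation -/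
noncomputable def bits {n : ℕ} (R : Fin n → Fin n → Prop) : Edge n → Bool := by
  classical
  exact fun e => decide (R e.1.1 e.1.2)

lemma bits_apply {n : ℕ} (R : Fin n → Fin n → Prop) (e : Edge n) :
    bits R e = true ↔ R e.1.1 e.1.2 := by
  simp [bits]

lemma graphOf_adj {n : ℕ} (x : Edge n → Bool) (i j : Fin n) :
    (graphOf x).Adj i j ↔ (∃ h : i < j, x ⟨(i, j), h⟩ = true) ∨ (∃ h : j < i, x ⟨(j, i), h⟩ = true) := by
  rw [graphOf, SimpleGraph.fromRel_adj]
  constructor
  · rintro ⟨_, h⟩; exact h
  · intro h
    refine ⟨?_, h⟩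
    rintro rfl
    rcases h with ⟨h, _⟩ | ⟨h, _⟩ <;> exact lt_irrefl _ h

lemma graphOf_bits_adj {n : ℕ} (R : Fin n → Fin n → Prop) (hR : ∀ i j, R i j → R j i) (i j : Fin n) :
    (graphOf (bits R)).Adj i j ↔ i ≠ j ∧ R i j := by
  rw [graphOf_adj]
  simp only [bits_apply]
  constructor
  · rintro (⟨h, h'⟩ | ⟨h, h'⟩)
    · exact ⟨h.ne, h'⟩
    · exact ⟨h.ne', hR _ _ h'⟩
  · rintro ⟨h, h'⟩
    rcases lt_or_gt_of_ne h with h1 | h1
    · exact Or.inl ⟨h1, h'⟩
    · exact Or.inr ⟨h1, hR _ _ h'⟩

variable {N : ℕ}

/-- the closed list through `0` that visits the vertices of `l` (shifted by one) -/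
def cyc (l : List (Fin N)) : List (Fin (N + 1)) := 0 :: (l.map Fin.succ ++ [0])

/-- `l` lists all members of `Fin N`, once each -/
def Full (l : List (Fin N)) : Prop := l.Nodup ∧ l.length = N

lemma Full.mem {l : List (Fin N)} (h : Full l) (u : Fin N) : u ∈ l := by
  have h1 : l.toFinset = univ := by
    rw [← card_eq_iff_eq_univ, List.toFinset_card_of_nodup h.1, h.2, Fintype.card_fin]
  have : u ∈ l.toFinset := by rw [h1]; exact mem_univ _
  exact List.mem_toFinset.1 this

/-- Hamilton cycles as lists -/
theorem ham_iff (hN : 2 ≤ N) (G : SimpleGraph (Fin (N + 1))) :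
    G.IsHamiltonian ↔ ∃ l : List (Fin N), Full l ∧ (cyc l).IsChain G.Adj := by
  constructor
  · intro h
    have : Nontrivial (Fin (N + 1)) := Fin.nontrivial_iff_two_le.2 (by omega)
    obtain ⟨p, hp⟩ := h.exists_isHamiltonianCycle 0
    -- the support of `p`
    have h1 := p.isChain_adj_support
    have h2 : p.support = 0 :: p.support.tail := p.cons_tail_support.symm
    have h3 : ∀ a, p.support.tail.count a = 1 :=
      (SimpleGraph.Walk.isHamiltonianCycle_iff_isCycle_and_support_count_tail_eq_one.1 hp).2
    have h4 : p.support.tail ≠ [] := by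
      intro h
      have := h3 0
      rw [h] at this
      simp at this
    have h5 : p.support.tail.getLast h4 = 0 := by
      rw [List.getLast_tail]
      exact p.getLast_support
    set M := p.support.tail.dropLast with hM
    have h6 : p.support.tail = M ++ [0] := by
      have := List.dropLast_append_getLast h4
      rw [h5] at this
      exact this.symm
    have h7 : M.count 0 = 0 := by
      have := h3 0
      rw [h6, List.count_append] at this
      simpa using this
    have h8 : ∀ a ∈ M, a ≠ 0 := by
      rintro a ha rfl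
      rw [List.count_eq_zero] at h7
      exact h7 ha
    have h9 : ∃ l : List (Fin N), l.map Fin.succ = M := by
      clear_value M
      clear hM h6 h7
      induction M with
      | nil => exact ⟨[], rfl⟩
      | cons a t ih =>
        obtain ⟨l, hl⟩ := ih (fun b hb => h8 b (List.mem_cons_of_mem _ hb))
        obtain ⟨b, hb⟩ := Fin.exists_succ_eq.2 (h8 a List.mem_cons_self)
        exact ⟨b :: l, by simp [hl, hb]⟩
    obtain ⟨l, hl⟩ := h9
    refine ⟨l, ⟨?_, ?_⟩, ?_⟩
    · have : M.Nodup := by
        rw [List.nodup_iff_count_le_one]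
        intro a
        have := h3 a
        rw [h6, List.count_append] at this
        omega
      rw [← hl] at this
      exact List.Nodup.of_map _ this
    · have h10 := hp.length_eq
      rw [Fintype.card_fin] at h10
      have h11 := p.length_support
      rw [h2, h6, ← hl] at h11
      simp at h11
      omega
    · rw [cyc, hl, ← h6, ← h2]
      exact h1
  · rintro ⟨l, hl, hc⟩ -
    have hne : (0 :: l.map Fin.succ : List (Fin (N + 1))) ≠ [] := List.cons_ne_nil _ _
    have hc' : (0 :: l.map Fin.succ ++ [0]).IsChain G.Adj := hc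
    rw [List.isChain_append] at hc'
    obtain ⟨hc1, -, hc3⟩ := hc'
    have hlast : G.Adj ((0 :: l.map Fin.succ).getLast hne) ((0 :: l.map Fin.succ).head hne) :=
      hc3 _ (List.getLast?_eq_some_getLast hne) 0 (by simp)
    refine ⟨(0 :: l.map Fin.succ).getLast hne,
      SimpleGraph.Walk.cons hlast (SimpleGraph.Walk.ofSupport _ hne hc1), ?_⟩
    rw [SimpleGraph.Walk.isHamiltonianCycle_iff_isCycle_and_length_eq,
      SimpleGraph.Walk.cons_isCycle_iff]
    have hpath : (SimpleGraph.Walk.ofSupport _ hne hc1).IsPath := by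
      rw [SimpleGraph.Walk.isPath_def, SimpleGraph.Walk.support_ofSupport, List.nodup_cons]
      constructor
      · intro h
        obtain ⟨a, _, ha⟩ := List.mem_map.1 h
        exact Fin.succ_ne_zero a ha
      · exact hl.1.map (Fin.succ_injective _)
    refine ⟨⟨hpath, ?_⟩, ?_⟩
    · intro h
      have h' : s(0, (0 :: l.map Fin.succ).getLast hne) ∈
          (SimpleGraph.Walk.ofSupport _ hne hc1).edges := by
        rw [Sym2.eq_swap]; exact h
      have := hpath.length_eq_one_of_mem_edges h'
      rw [SimpleGraph.Walk.length_ofSupport] at this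
      simp at this
      have := hl.2
      omega
    · rw [SimpleGraph.Walk.length_cons, SimpleGraph.Walk.length_ofSupport, Fintype.card_fin]
      simp [hl.2]

/-- consecutive members of a list -/
def Nb {α : Type*} (c : List α) (u v : α) : Prop := ∃ l₁ l₂, c = l₁ ++ u :: v :: l₂

/-- the input that consists of the edges of one Hamilton cycle -/
noncomputable def xcyc (l : List (Fin N)) : Edge (N + 1) → Bool :=
  bits (fun u v => Nb (cyc l) u v ∨ Nb (cyc l) v u)

lemma cyc_ne (hN : 2 ≤ N) {l : List (Fin N)} (hl : Full l) {u v : Fin (N + 1)}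
    (h : Nb (cyc l) u v) : u ≠ v := by
  obtain ⟨l₁, l₂, h⟩ := h
  rintro rfl
  -- `0 :: map` and `map ++ [0]` have no duplicates
  have hnd : (l.map Fin.succ).Nodup := hl.1.map (Fin.succ_injective _)
  have h0 : (0 : Fin (N + 1)) ∉ l.map Fin.succ := by
    intro h
    obtain ⟨a, _, ha⟩ := List.mem_map.1 h
    exact Fin.succ_ne_zero a ha
  have hlen : (l.map Fin.succ).length = N := by simp [hl.2]
  rw [cyc] at h
  generalize l.map Fin.succ = M at *
  cases l₁ with
  | nil =>
    simp only [List.nil_append, List.cons.injEq] at h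
    obtain ⟨rfl, h⟩ := h
    cases M with
    | nil => simp at hlen; omega
    | cons a t =>
      simp only [List.cons_append, List.cons.injEq] at h
      apply h0
      rw [h.1]
      exact List.mem_cons_self
  | cons a t =>
    simp only [List.cons_append, List.cons.injEq] at h
    obtain ⟨-, h⟩ := h
    have h1 : (M ++ [0]).Nodup := by
      rw [List.nodup_append]
      refine ⟨hnd, by simp, ?_⟩
      intro a ha b hb
      simp only [List.mem_singleton] at hb
      rintro rfl
      exact h0 (hb ▸ ha)
    rw [h, List.nodup_append] at h1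
    have := h1.2.1
    simp at this

lemma xcyc_ham (hN : 2 ≤ N) {l : List (Fin N)} (hl : Full l) : (graphOf (xcyc l)).IsHamiltonian := by
  rw [ham_iff hN]
  refine ⟨l, hl, ?_⟩
  rw [List.isChain_iff_forall_rel_of_append_cons_cons]
  intro a b l₁ l₂ h
  rw [xcyc, graphOf_bits_adj]
  · exact ⟨cyc_ne hN hl ⟨l₁, l₂, h⟩, Or.inl ⟨l₁, l₂, h⟩⟩
  · intro i j h; exact h.symm

/-- `u` and `v` are not separated by the cut given by `A`; the vertex `0` is on both sides -/
def Same (A : Finset (Fin N)) (u v : Fin (N + 1)) : Prop :=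
  ∀ a b : Fin N, u = a.succ → v = b.succ → (a ∈ A ↔ b ∈ A)

/-- the input with all edges except those between `A` and its complement (both without `0`) -/
noncomputable def ycut (A : Finset (Fin N)) : Edge (N + 1) → Bool := bits (Same A)

lemma ycut_not_ham (hN : 2 ≤ N) {A : Finset (Fin N)} (h1 : A.Nonempty) (h2 : A ≠ univ) :
    ¬ (graphOf (ycut A)).IsHamiltonian := by
  rw [ham_iff hN]
  rintro ⟨l, hl, hc⟩
  have hs : ∀ i j, Same A i j → Same A j i := by
    intro i j h a b ha hb
    exact (h b a hb ha).symm
  have hc1 : (l.map Fin.succ).IsChain (graphOf (ycut A)).Adj := by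
    rw [cyc] at hc
    have h3 := hc.of_cons
    rw [List.isChain_append] at h3
    exact h3.1
  have hc2 : l.IsChain (fun a b => a ∈ A ↔ b ∈ A) := by
    rw [List.isChain_map] at hc1
    refine hc1.imp ?_
    intro a b hab
    rw [ycut, graphOf_bits_adj _ hs] at hab
    exact hab.2 a b rfl rfl
  have htr : IsTrans (Fin N) (fun a b => a ∈ A ↔ b ∈ A) := ⟨fun a b c h h' => h.trans h'⟩
  rw [List.isChain_iff_pairwise] at hc2
  obtain ⟨a, ha⟩ := h1
  have : ∃ b, b ∉ A := by
    by_contra h
    push Not at h
    exact h2 (eq_univ_iff_forall.2 h)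
  obtain ⟨b, hb⟩ := this
  have hall : ∀ a ∈ l, ∀ b ∈ l, a ≠ b → (a ∈ A ↔ b ∈ A) := by
    have hsym : Std.Symm (fun a b : Fin N => a ∈ A ↔ b ∈ A) := ⟨fun a b h => h.symm⟩
    intro a ha b hb hab
    exact hc2.forall ha hb hab
  have := hall a (hl.mem a) b (hl.mem b) (by rintro rfl; exact hb ha)
  exact hb (this.1 ha)

lemma Nb_iff {α : Type*} (L : List α) (u v : α) :
    Nb L u v ↔ ∃ i, L[i]? = some u ∧ L[i + 1]? = some v := by
  constructor
  · rintro ⟨l₁, l₂, rfl⟩
    refine ⟨l₁.length, by simp, ?_⟩
    rw [List.getElem?_append_right (by omega)]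
    simp
  · rintro ⟨i, h1, h2⟩
    obtain ⟨hi, h1⟩ := List.getElem?_eq_some_iff.1 h1
    obtain ⟨hi', h2⟩ := List.getElem?_eq_some_iff.1 h2
    refine ⟨L.take i, L.drop (i + 2), ?_⟩
    rw [← h1, ← h2]
    conv_lhs => rw [← List.take_append_drop i L]
    rw [List.drop_eq_getElem_cons hi, List.drop_eq_getElem_cons hi']

lemma cyc_getElem {l : List (Fin N)} {i : ℕ} {a : Fin N} :
    (cyc l)[i]? = some a.succ ↔ ∃ j, i = j + 1 ∧ l[j]? = some a := by
  cases i with
  | zero =>
    simp only [cyc, List.getElem?_cons_zero, Option.some.injEq]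
    constructor
    · intro h; exact absurd h.symm (Fin.succ_ne_zero a)
    · rintro ⟨j, hj, _⟩; omega
  | succ j =>
    simp only [cyc, List.getElem?_cons_succ]
    constructor
    · intro h
      refine ⟨j, rfl, ?_⟩
      rcases lt_or_ge j l.length with h1 | h1
      · rw [List.getElem?_append_left (by simpa using h1), List.getElem?_map] at h
        rw [List.getElem?_eq_getElem h1] at h ⊢
        simpa using h
      · rw [List.getElem?_append_right (by simpa using h1)] at h
        rw [List.getElem?_singleton] at h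
        split_ifs at h
        simp only [Option.some.injEq] at h
        exact absurd h.symm (Fin.succ_ne_zero a)
    · rintro ⟨j', hj, h⟩
      obtain rfl : j = j' := by omega
      obtain ⟨h1, h2⟩ := List.getElem?_eq_some_iff.1 h
      rw [List.getElem?_append_left (by simpa using h1), List.getElem?_map, h]
      rfl

/-- the only edge of the cycle that crosses the cut of a final segment -/
lemma crossing {l : List (Fin N)} (hl : l.Nodup) {s t : List (Fin N)} {v w : Fin N}
    (hd : l = s ++ w :: v :: t) {a b : Fin N} (ha : a ∈ v :: t) (hb : b ∉ v :: t)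
    (h : Nb (cyc l) a.succ b.succ ∨ Nb (cyc l) b.succ a.succ) : a = v ∧ b = w := by
  have key : ∀ i a, l[i]? = some a → (a ∈ v :: t ↔ s.length + 1 ≤ i) := by
    intro i a hi
    constructor
    · intro ha
      obtain ⟨j, hj, hja⟩ := List.getElem_of_mem ha
      have h1 : l[s.length + 1 + j]? = some a := by
        rw [hd, List.getElem?_append_right (by omega)]
        have : s.length + 1 + j - s.length = j + 1 := by omega
        rw [this, List.getElem?_cons_succ, List.getElem?_eq_getElem hj, hja]
      obtain ⟨h2, h3⟩ := List.getElem?_eq_some_iff.1 h1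
      obtain ⟨h4, h5⟩ := List.getElem?_eq_some_iff.1 hi
      have := (hl.getElem_inj_iff).1 (h3.trans h5.symm)
      omega
    · intro h
      rw [hd, List.getElem?_append_right (by omega)] at hi
      have : i - s.length = (i - s.length - 1) + 1 := by omega
      rw [this, List.getElem?_cons_succ] at hi
      exact List.mem_of_getElem? hi
  simp only [Nb_iff, cyc_getElem] at h
  rcases h with ⟨i, ⟨j, hj, h1⟩, ⟨j', hj', h2⟩⟩ | ⟨i, ⟨j, hj, h1⟩, ⟨j', hj', h2⟩⟩
  · exfalso
    have h3 := (key _ _ h1).1 ha
    exact hb ((key _ _ h2).2 (by omega))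
  · have h3 := (key _ _ h2).1 ha
    have h4 : ¬ s.length + 1 ≤ j := fun h => hb ((key _ _ h1).2 h)
    have h5 : j = s.length := by omega
    have h6 : j' = s.length + 1 := by omega
    constructor
    · rw [h6, hd, List.getElem?_append_right (by omega)] at h2
      have : s.length + 1 - s.length = 1 := by omega
      rw [this] at h2
      simpa using h2.symm
    · rw [h5, hd, List.getElem?_append_right (by omega)] at h1
      simpa using h1.symm

end Pool.Agent.V7H68.Ham
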