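import Mathlib
import Pool.Agent.V7H68.Ham.Count
import Pool.Agent.V7H68.Ham.Graph

/-! The lower bound for monotone gates. -/

set_option autoImplicit false

open Finset
open scoped Nat

namespace Pool.Agent.V7H68.Ham

/-- the gate `T` reads at most `k` of the input variables -/
def Reads {n : ℕ} (k : ℕ) (T : (Edge n → Bool) → Bool) : Prop :=
  ∃ S : Finset (Edge n), #S ≤ k ∧ ∀ x y, (∀ e ∈ S, x e = y e) → T x = T y

variable {N : ℕ}

/-- all listings of `Fin N` -/
def fulls (N : ℕ) : Finset (List (Fin N)) := (List.finRange N).permutations.toFinset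

lemma mem_fulls {l : List (Fin N)} : l ∈ fulls N ↔ Full l := by
  rw [fulls, List.mem_toFinset, List.mem_permutations]
  constructor
  · intro h
    exact ⟨(h.nodup_iff).2 (List.nodup_finRange N), by rw [h.length_eq, List.length_finRange]⟩
  · intro h
    rw [List.perm_ext_iff_of_nodup h.1 (List.nodup_finRange N)]
    intro a
    simp [h.mem a]

lemma card_fulls : #(fulls N) = N ! := by
  rw [fulls, List.toFinset_card_of_nodup, List.length_permutations, List.length_finRange]
  exact List.nodup_permutations _ (List.nodup_finRange N)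

/-- pairs across the cut that belong to a set of edges -/
def cross (A : Finset (Fin N)) (S : Finset (Edge (N + 1))) : Finset (Fin N × Fin N) :=
  S.biUnion (fun e => univ.filter (fun p : Fin N × Fin N =>
    p.1 ∈ A ∧ p.2 ∉ A ∧ (e.1 = (p.1.succ, p.2.succ) ∨ e.1 = (p.2.succ, p.1.succ))))

lemma card_cross (A : Finset (Fin N)) (S : Finset (Edge (N + 1))) : #(cross A S) ≤ #S := by
  have := card_biUnion_le_card_mul S (fun e => univ.filter (fun p : Fin N × Fin N =>
    p.1 ∈ A ∧ p.2 ∉ A ∧ (e.1 = (p.1.succ, p.2.succ) ∨ e.1 = (p.2.succ, p.1.succ)))) 1 ?_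
  · rw [mul_one] at this; exact this
  · intro e _
    rw [card_le_one]
    rintro ⟨a, b⟩ h1 ⟨c, d⟩ h2
    simp only [mem_filter, mem_univ, true_and] at h1 h2
    obtain ⟨ha, hb, h1⟩ := h1
    obtain ⟨hc, hd, h2⟩ := h2
    rcases h1 with h1 | h1 <;> rcases h2 with h2 | h2 <;> rw [h1] at h2 <;>
      simp only [Prod.mk.injEq, Fin.succ_inj] at h2
    · rw [h2.1, h2.2]
    · exfalso; exact hd (h2.1 ▸ ha)
    · exfalso; exact hd (h2.2 ▸ ha)
    · rw [h2.1, h2.2]

open scoped Classical in
/-- one conjunction of monotone gates accepts few Hamilton cycles if it accepts no graph with a cut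
vertex -/
theorem card_accepted (hN : 2 ≤ N) (k : ℕ) {J : Type*} (T : J → (Edge (N + 1) → Bool) → Bool)
    (hmono : ∀ j, Monotone (T j)) (hloc : ∀ j, Reads k (T j))
    (hT : ∀ A : Finset (Fin N), A.Nonempty → A ≠ univ → ∃ j, T j (ycut A) = false) :
    (#{l ∈ fulls N | ∀ j, T j (xcyc l) = true}) ^ 2 ≤ N ^ 2 * k ^ (N - 1) := by
  classical
  choose f hf using hT
  choose R hR1 hR2 using hloc
  set S : Finset (Fin N) → Finset (Fin N × Fin N) := fun A =>
    if h : A.Nonempty ∧ A ≠ univ then cross A (R (f A h.1 h.2)) else ∅ with hS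
  have hSk : ∀ A, #(S A) ≤ k := by
    intro A
    simp only [hS]
    split_ifs with h
    · exact (card_cross _ _).trans (hR1 _)
    · simp
  have hgood : ∀ l ∈ fulls N, (∀ j, T j (xcyc l) = true) → Good S l := by
    intro l hl hacc
    rw [mem_fulls] at hl
    have key : ∀ (l' s : List (Fin N)), l = s ++ l' → Good S l' := by
      intro l'
      induction l' with
      | nil => intro s _; trivial
      | cons w t ih =>
        intro s hs
        cases t with
        | nil => trivial
        | cons v t =>
          refine ⟨?_, ih (s ++ [w]) (by rw [hs]; simp)⟩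
          have hnd : (w :: v :: t).Nodup := by
            have := hl.1
            rw [hs, List.nodup_append] at this
            exact this.2.1
          set A := (v :: t).toFinset with hA
          have hw : w ∉ A := by
            rw [hA, List.mem_toFinset]
            exact (List.nodup_cons.1 hnd).1
          have h1 : A.Nonempty := ⟨v, by rw [hA, List.mem_toFinset]; exact List.mem_cons_self⟩
          have h2 : A ≠ univ := fun h => hw (h ▸ mem_univ _)
          simp only [hS]
          rw [dif_pos ⟨h1, h2⟩]
          set j := f A h1 h2 with hj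
          -- there is an edge read by the gate, present in the cycle and absent from the cut graph
          have hex : ∃ e ∈ R j, xcyc l e = true ∧ ycut A e = false := by
            by_contra hno
            push Not at hno
            have hx : T j (fun e => if e ∈ R j then xcyc l e else false) = true := by
              rw [← hacc j]
              apply hR2 j
              intro e he
              rw [if_pos he]
            have hle : (fun e => if e ∈ R j then xcyc l e else false) ≤ ycut A := by
              intro e
              by_cases he : e ∈ R j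
              · simp only [if_pos he]
                have := hno e he
                revert this
                cases xcyc l e <;> cases ycut A e <;> simp
              · simp only [if_neg he]
                exact Bool.false_le _
            have := hmono j hle
            rw [hx, hf A h1 h2] at this
            exact absurd this (by decide)
          obtain ⟨e, heR, hex, hey⟩ := hex
          have h3 : ¬ Same A e.1.1 e.1.2 := by
            intro h
            have : ycut A e = true := (bits_apply _ _).2 h
            rw [hey] at this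
            exact absurd this (by decide)
          rw [Same] at h3
          push Not at h3
          obtain ⟨a, b, ha, hb, hab⟩ := h3
          have h4 := (bits_apply _ _).1 hex
          rw [ha, hb] at h4
          rw [cross, mem_biUnion]
          refine ⟨e, heR, ?_⟩
          rw [mem_filter]
          rcases hab with ⟨h5, h6⟩ | ⟨h5, h6⟩
          · obtain ⟨rfl, rfl⟩ := crossing hl.1 hs (by simpa [hA] using h5) (by simpa [hA] using h6) h4
            exact ⟨mem_univ _, h5, h6, Or.inl (Prod.ext ha hb)⟩
          · obtain ⟨rfl, rfl⟩ := crossing hl.1 hs (by simpa [hA] using h6) (by simpa [hA] using h5) h4.symm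
            exact ⟨mem_univ _, h6, h5, Or.inr (Prod.ext ha hb)⟩
    exact key l [] rfl
  have := card_good (U := Fin N) (by rw [Fintype.card_fin]; omega) S k hSk
    {l ∈ fulls N | ∀ j, T j (xcyc l) = true} (by
      intro l hl
      rw [mem_filter] at hl
      have h1 := mem_fulls.1 hl.1
      exact ⟨h1.1, by rw [h1.2, Fintype.card_fin], hgood l hl.1 hl.2⟩)
  rw [Fintype.card_fin] at this
  exact this

/-- **Lower bound, monotone gates.** -/
theorem lower_mono (n k m : ℕ) (hn : 3 ≤ n) (J : Fin m → Type*)
    (T : ∀ w, J w → (Edge n → Bool) → Bool)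
    (hmono : ∀ w j, Monotone (T w j)) (hloc : ∀ w j, Reads k (T w j))
    (hT : ∀ x, (graphOf x).IsHamiltonian ↔ ∃ w, ∀ j, T w j x = true) :
    ((n - 2)!) ^ 2 ≤ m ^ 2 * k ^ (n - 2) := by
  classical
  obtain ⟨N, rfl⟩ : ∃ N, n = N + 1 := ⟨n - 1, by omega⟩
  have hN : 2 ≤ N := by omega
  have h1 : ∀ w, (#{l ∈ fulls N | ∀ j, T w j (xcyc l) = true}) ^ 2 ≤ N ^ 2 * k ^ (N - 1) := by
    intro w
    apply card_accepted hN k (T w) (hmono w) (hloc w)
    intro A h1 h2
    by_contra hno
    push Not at hno
    apply ycut_not_ham hN h1 h2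
    rw [hT]
    refine ⟨w, fun j => ?_⟩
    have := hno j
    revert this
    cases T w j (ycut A) <;> simp
  have h2 : #(fulls N) ≤ ∑ w : Fin m, #{l ∈ fulls N | ∀ j, T w j (xcyc l) = true} := by
    refine le_trans ?_ card_biUnion_le
    apply card_le_card
    intro l hl
    rw [mem_biUnion]
    obtain ⟨w, hw⟩ := (hT _).1 (xcyc_ham hN (mem_fulls.1 hl))
    exact ⟨w, mem_univ _, mem_filter.2 ⟨hl, hw⟩⟩
  have h3 : (#(fulls N)) ^ 2 ≤ m ^ 2 * (N ^ 2 * k ^ (N - 1)) := by
    calc (#(fulls N)) ^ 2
        ≤ (∑ w : Fin m, #{l ∈ fulls N | ∀ j, T w j (xcyc l) = true}) ^ 2 :=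
          Nat.pow_le_pow_left h2 2
      _ ≤ #(univ : Finset (Fin m)) * ∑ w : Fin m, (#{l ∈ fulls N | ∀ j, T w j (xcyc l) = true}) ^ 2 :=
          sq_sum_le_card_mul_sum_sq
      _ ≤ m * ∑ w : Fin m, (N ^ 2 * k ^ (N - 1)) := by
          rw [card_univ, Fintype.card_fin]
          exact Nat.mul_le_mul_left _ (sum_le_sum fun w _ => h1 w)
      _ = m ^ 2 * (N ^ 2 * k ^ (N - 1)) := by
          rw [sum_const, card_univ, Fintype.card_fin, smul_eq_mul]; ring
  rw [card_fulls] at h3
  have h4 : N ! = N * (N - 1)! := by
    rw [Nat.mul_factorial_pred (by omega)]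
  rw [h4, mul_pow] at h3
  have h5 : N + 1 - 2 = N - 1 := by omega
  rw [h5]
  have h6 : 0 < N ^ 2 := by positivity
  apply Nat.le_of_mul_le_mul_left _ h6
  calc N ^ 2 * ((N - 1)!) ^ 2 ≤ m ^ 2 * (N ^ 2 * k ^ (N - 1)) := h3
    _ = N ^ 2 * (m ^ 2 * k ^ (N - 1)) := by ring

end Pool.Agent.V7H68.Ham
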