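import Mathlib
import Pool.Agent.V7H68.Ham.Lower

/-! The matching construction: check points and segments. -/

set_option autoImplicit false

open Finset
open scoped Nat

namespace Pool.Agent.V7H68.Ham

/-- cyclic successor -/
def nx {n : ℕ} (i : Fin n) : Fin n := ⟨(i.val + 1) % n, Nat.mod_lt _ (Nat.lt_of_le_of_lt (Nat.zero_le _) i.isLt)⟩

/-- Hamilton cycles as cyclic orders -/
theorem ham_iff_perm {n : ℕ} (hn : 3 ≤ n) (G : SimpleGraph (Fin n)) :
    G.IsHamiltonian ↔ ∃ f : Equiv.Perm (Fin n), ∀ i, G.Adj (f i) (f (nx i)) := by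
  have h1 : G.IsHamiltonian ↔ (SimpleGraph.cycleGraph n).IsContained G := by
    rw [SimpleGraph.cycleGraph_isContained_iff (by omega)]
    constructor
    · intro h
      obtain ⟨v, p, hp⟩ := h (by rw [Fintype.card_fin]; omega)
      rw [SimpleGraph.Walk.isHamiltonianCycle_iff_isCycle_and_length_eq, Fintype.card_fin] at hp
      exact ⟨v, p, hp⟩
    · rintro ⟨v, p, hp⟩ _
      refine ⟨v, p, ?_⟩
      rw [SimpleGraph.Walk.isHamiltonianCycle_iff_isCycle_and_length_eq, Fintype.card_fin]
      exact hp
  rw [h1]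
  constructor
  · rintro ⟨c⟩
    have hinj : Function.Injective c := c.injective
    refine ⟨Equiv.ofBijective c (Finite.injective_iff_bijective.1 hinj), fun i => ?_⟩
    apply c.toHom.map_adj
    rw [SimpleGraph.cycleGraph_adj']
    right
    rw [Fin.val_sub]
    simp only [nx]
    rcases lt_or_ge (i.val + 1) n with h | h
    · rw [Nat.mod_eq_of_lt h]
      have : n - i.val + (i.val + 1) = n + 1 := by have := i.isLt; omega
      rw [this, Nat.add_mod_left, Nat.mod_eq_of_lt (by omega)]
    · have : i.val + 1 = n := by have := i.isLt; omega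
      rw [this, Nat.mod_self]
      have : n - i.val + 0 = 1 := by omega
      rw [this, Nat.mod_eq_of_lt (by omega)]
  · rintro ⟨f, hf⟩
    refine ⟨⟨⟨f, ?_⟩, f.injective⟩⟩
    intro u v huv
    rw [SimpleGraph.cycleGraph_adj'] at huv
    have key : ∀ u v : Fin n, (v - u).val = 1 → nx u = v := by
      intro u v h
      rw [Fin.val_sub] at h
      apply Fin.ext
      simp only [nx]
      have hu := u.isLt
      have hv := v.isLt
      rcases lt_or_ge v.val u.val with h2 | h2
      · have h3 : n - u.val + v.val < n := by omega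
        rw [Nat.mod_eq_of_lt h3] at h
        have : u.val + 1 = n + v.val := by omega
        have hv0 : v.val = 0 := by omega
        rw [this, hv0, Nat.add_zero, Nat.mod_self]
      · have h3 : n - u.val + v.val = n + (v.val - u.val) := by omega
        rw [h3, Nat.add_mod_left, Nat.mod_eq_of_lt (by omega)] at h
        rw [Nat.mod_eq_of_lt (by omega)]
        omega
    rcases huv with h | h
    · have := hf v
      rw [key v u h] at this
      exact this.symm
    · have := hf u
      rw [key u v h] at this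
      exact this

/-- permutations of `Fin (q+1)` that fix `0` -/
def rho {q : ℕ} (e : Equiv.Perm (Fin q)) : Equiv.Perm (Fin (q + 1)) :=
  Equiv.Perm.decomposeFin.symm (0, e)

lemma rho_zero {q : ℕ} (e : Equiv.Perm (Fin q)) : rho e 0 = 0 := by
  rw [rho, Equiv.Perm.decomposeFin_symm_apply_zero]

lemma rho_succ {q : ℕ} (e : Equiv.Perm (Fin q)) (j : Fin q) : rho e j.succ = (e j).succ := by
  rw [rho, Equiv.Perm.decomposeFin_symm_apply_succ]
  simp

lemma rho_one {q : ℕ} (j : Fin (q + 1)) : rho (1 : Equiv.Perm (Fin q)) j = j := by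
  cases j using Fin.cases with
  | zero => rw [rho_zero]
  | succ j => rw [rho_succ]; rfl

lemma rho_mul {q : ℕ} (e e' : Equiv.Perm (Fin q)) (j : Fin (q + 1)) :
    rho (e * e') j = rho e (rho e' j) := by
  cases j using Fin.cases with
  | zero => rw [rho_zero, rho_zero, rho_zero]
  | succ j => rw [rho_succ, rho_succ, rho_succ]; rfl

lemma rho_inj {q : ℕ} {e e' : Equiv.Perm (Fin q)} (h : ∀ j, rho e j = rho e' j) : e = e' := by
  ext j
  have := h j.succ
  rw [rho_succ, rho_succ] at this
  exact congrArg Fin.val (Fin.succ_injective _ this)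

variable {t q : ℕ}

/-- positions: block and place in the block; the next position -/
def nxp (p : Fin t × Fin (q + 1)) : Fin t × Fin (q + 1) :=
  if h : p.2.val + 1 < q + 1 then (p.1, ⟨p.2.val + 1, h⟩) else (nx p.1, 0)

lemma nx_finProd (p : Fin t × Fin (q + 1)) : nx (finProdFinEquiv p) = finProdFinEquiv (nxp p) := by
  obtain ⟨i, j⟩ := p
  apply Fin.ext
  have hi := i.isLt
  have hj := j.isLt
  simp only [nx, nxp]
  split_ifs with h
  · simp only [finProdFinEquiv_apply_val]
    have h1 : j.val + (q + 1) * i.val + 1 < t * (q + 1) := by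
      calc j.val + (q + 1) * i.val + 1 < (q + 1) + (q + 1) * i.val := by omega
        _ = (q + 1) * (i.val + 1) := by ring
        _ ≤ (q + 1) * t := Nat.mul_le_mul_left _ hi
        _ = t * (q + 1) := by ring
    rw [Nat.mod_eq_of_lt h1]
    ring
  · simp only [finProdFinEquiv_apply_val]
    have h1 : j.val + (q + 1) * i.val + 1 = (q + 1) * (i.val + 1) := by
      have : j.val = q := by omega
      rw [this]; ring
    rw [h1]
    simp only [nx, Fin.val_zero, Nat.zero_add]
    rw [Nat.mul_comm t, Nat.mul_mod_mul_left]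

/-- rearrange the places `1, …, q` of all blocks -/
def act (e : Equiv.Perm (Fin q)) (p : Fin t × Fin (q + 1)) : Fin t × Fin (q + 1) :=
  (p.1, rho e p.2)

/-- the segment gate -/
noncomputable def seg (σ : Fin t × Fin (q + 1) ≃ Fin (t * (q + 1))) (i : Fin t)
    (x : Edge (t * (q + 1)) → Bool) : Bool := by
  classical
  exact decide (∃ e : Equiv.Perm (Fin q), ∀ j,
    (graphOf x).Adj (σ (act e (i, j))) (σ (act e (nxp (i, j)))))

lemma seg_iff (σ : Fin t × Fin (q + 1) ≃ Fin (t * (q + 1))) (i : Fin t)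
    (x : Edge (t * (q + 1)) → Bool) : seg σ i x = true ↔ ∃ e : Equiv.Perm (Fin q), ∀ j,
    (graphOf x).Adj (σ (act e (i, j))) (σ (act e (nxp (i, j)))) := by
  simp [seg]

lemma graphOf_mono {n : ℕ} {x y : Edge n → Bool} (h : x ≤ y) : graphOf x ≤ graphOf y := by
  intro i j
  rw [graphOf_adj, graphOf_adj]
  rintro (⟨h1, h2⟩ | ⟨h1, h2⟩)
  · refine Or.inl ⟨h1, ?_⟩
    have := h ⟨(i, j), h1⟩
    rw [h2] at this
    exact Bool.eq_true_of_true_le this
  · refine Or.inr ⟨h1, ?_⟩
    have := h ⟨(j, i), h1⟩
    rw [h2] at this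
    exact Bool.eq_true_of_true_le this

lemma seg_mono (σ : Fin t × Fin (q + 1) ≃ Fin (t * (q + 1))) (i : Fin t) : Monotone (seg σ i) := by
  intro x y h
  rcases hx : seg σ i x with _ | _
  · exact Bool.false_le _
  · rw [seg_iff] at hx
    obtain ⟨e, he⟩ := hx
    have : seg σ i y = true := (seg_iff _ _ _).2 ⟨e, fun j => graphOf_mono h (he j)⟩
    rw [this]

/-- the edges inside a set of vertices -/
def inner {n : ℕ} (B : Finset (Fin n)) : Finset (Edge n) := univ.filter (fun e => e.1.1 ∈ B ∧ e.1.2 ∈ B)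

lemma card_inner {n : ℕ} (B : Finset (Fin n)) : #(inner B) ≤ (#B).choose 2 := by
  rw [← card_powersetCard]
  apply card_le_card_of_injOn (fun e => {e.1.1, e.1.2})
  · intro e he
    simp only [inner, coe_filter, mem_univ, true_and, Set.mem_ofPred_eq] at he
    rw [mem_coe, mem_powersetCard]
    refine ⟨?_, card_pair e.2.ne⟩
    intro u hu
    simp only [mem_insert, mem_singleton] at hu
    rcases hu with rfl | rfl
    · exact he.1
    · exact he.2
  · intro e _ e' _ h
    have h1 : e.1.1 ∈ ({e'.1.1, e'.1.2} : Finset (Fin n)) := by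
      have : e.1.1 ∈ ({e.1.1, e.1.2} : Finset (Fin n)) := by simp
      have h' : ({e.1.1, e.1.2} : Finset (Fin n)) = {e'.1.1, e'.1.2} := h
      rw [← h']; exact this
    have h2 : e.1.2 ∈ ({e'.1.1, e'.1.2} : Finset (Fin n)) := by
      have : e.1.2 ∈ ({e.1.1, e.1.2} : Finset (Fin n)) := by simp
      have h' : ({e.1.1, e.1.2} : Finset (Fin n)) = {e'.1.1, e'.1.2} := h
      rw [← h']; exact this
    simp only [mem_insert, mem_singleton] at h1 h2
    have h3 := e.2
    have h4 := e'.2
    apply Subtype.ext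
    apply Prod.ext
    · rcases h1 with h1 | h1
      · exact h1
      · rcases h2 with h2 | h2
        · rw [h1, h2] at h3; exact absurd (h3.trans h4) (lt_irrefl _)
        · rw [h1, h2] at h3; exact absurd h3 (lt_irrefl _)
    · rcases h2 with h2 | h2
      · rcases h1 with h1 | h1
        · rw [h1, h2] at h3; exact absurd h3 (lt_irrefl _)
        · rw [h1, h2] at h3; exact absurd (h3.trans h4) (lt_irrefl _)
      · exact h2

lemma adj_congr {n : ℕ} {B : Finset (Fin n)} {x y : Edge n → Bool} (h : ∀ e ∈ inner B, x e = y e)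
    {u v : Fin n} (hu : u ∈ B) (hv : v ∈ B) : (graphOf x).Adj u v → (graphOf y).Adj u v := by
  rw [graphOf_adj, graphOf_adj]
  rintro (⟨h1, h2⟩ | ⟨h1, h2⟩)
  · exact Or.inl ⟨h1, by rw [← h _ (by simp [inner, hu, hv])]; exact h2⟩
  · exact Or.inr ⟨h1, by rw [← h _ (by simp [inner, hu, hv])]; exact h2⟩

lemma seg_reads (σ : Fin t × Fin (q + 1) ≃ Fin (t * (q + 1))) (i : Fin t) :
    Reads ((q + 2).choose 2) (seg σ i) := by
  classical
  set B : Finset (Fin (t * (q + 1))) :=
    insert (σ (nx i, 0)) (univ.image (fun j : Fin (q + 1) => σ (i, j))) with hB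
  have hBc : #B ≤ q + 2 := by
    refine (card_insert_le _ _).trans ?_
    have : #(univ.image (fun j : Fin (q + 1) => σ (i, j))) ≤ q + 1 := by
      refine card_image_le.trans ?_
      rw [card_univ, Fintype.card_fin]
    omega
  have hmem : ∀ (e : Equiv.Perm (Fin q)) (j : Fin (q + 1)), σ (act e (i, j)) ∈ B ∧
      σ (act e (nxp (i, j))) ∈ B := by
    intro e j
    have h1 : ∀ j, σ (act e (i, j)) ∈ B := by
      intro j
      rw [hB]
      apply mem_insert_of_mem
      exact mem_image_of_mem (fun j => σ (i, j)) (mem_univ (rho e j))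
    refine ⟨h1 j, ?_⟩
    rw [nxp]
    split_ifs with h
    · exact h1 _
    · have : act e (nx i, (0 : Fin (q + 1))) = (nx i, 0) := by
        simp only [act, rho_zero]
      rw [this, hB]
      exact mem_insert_self _ _
  refine ⟨inner B, (card_inner B).trans (Nat.choose_le_choose 2 hBc), ?_⟩
  have key : ∀ x y : Edge (t * (q + 1)) → Bool, (∀ e ∈ inner B, x e = y e) →
      seg σ i x = true → seg σ i y = true := by
    intro x y h hx
    rw [seg_iff] at hx ⊢
    obtain ⟨e, he⟩ := hx
    exact ⟨e, fun j => adj_congr h (hmem e j).1 (hmem e j).2 (he j)⟩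
  intro x y h
  rcases hx : seg σ i x with _ | _
  · rcases hy : seg σ i y with _ | _
    · rfl
    · rw [key y x (fun e he => (h e he).symm) hy] at hx
      exact absurd hx (by decide)
  · rw [key x y h hx]

/-- rearrangement of the blocks, one permutation for each block -/
def shuf (e : Fin t → Equiv.Perm (Fin q)) : Fin t × Fin (q + 1) ≃ Fin t × Fin (q + 1) :=
  Equiv.prodShear (Equiv.refl (Fin t)) (fun i => rho (e i))

lemma shuf_apply (e : Fin t → Equiv.Perm (Fin q)) (p : Fin t × Fin (q + 1)) :
    shuf e p = (p.1, rho (e p.1) p.2) := rfl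

lemma seg_shuf (σ : Fin t × Fin (q + 1) ≃ Fin (t * (q + 1))) (e : Fin t → Equiv.Perm (Fin q)) :
    seg ((shuf e).trans σ) = seg σ := by
  have h1 : ∀ (i : Fin t) (e' : Equiv.Perm (Fin q)) (j : Fin (q + 1)),
      shuf e (act e' (i, j)) = act (e i * e') (i, j) := by
    intro i e' j
    rw [shuf_apply]
    simp only [act, rho_mul]
  have h2 : ∀ (i : Fin t) (e' : Equiv.Perm (Fin q)) (j : Fin (q + 1)),
      shuf e (act e' (nxp (i, j))) = act (e i * e') (nxp (i, j)) := by
    intro i e' j
    rw [nxp]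
    split_ifs with h
    · exact h1 _ _ _
    · rw [shuf_apply]
      simp only [act, rho_zero]
  have h3 : ∀ i x, seg ((shuf e).trans σ) i x = true ↔ seg σ i x = true := by
    intro i x
    rw [seg_iff, seg_iff]
    constructor
    · rintro ⟨e', he'⟩
      refine ⟨e i * e', fun j => ?_⟩
      have := he' j
      rw [Equiv.trans_apply, Equiv.trans_apply, h1, h2] at this
      exact this
    · rintro ⟨e', he'⟩
      refine ⟨(e i)⁻¹ * e', fun j => ?_⟩
      rw [Equiv.trans_apply, Equiv.trans_apply, h1, h2, mul_inv_cancel_left]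
      exact he' j
  funext i x
  have := h3 i x
  revert this
  cases seg ((shuf e).trans σ) i x <;> cases seg σ i x <;> simp

lemma ham_iff_seg (h3 : 3 ≤ t * (q + 1)) (x : Edge (t * (q + 1)) → Bool) :
    (graphOf x).IsHamiltonian ↔
      ∃ σ : Fin t × Fin (q + 1) ≃ Fin (t * (q + 1)), ∀ i, seg σ i x = true := by
  rw [ham_iff_perm h3]
  constructor
  · rintro ⟨f, hf⟩
    refine ⟨finProdFinEquiv.trans f, fun i => ?_⟩
    rw [seg_iff]
    refine ⟨1, fun j => ?_⟩
    have h1 : ∀ p : Fin t × Fin (q + 1), act 1 p = p := by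
      intro p; simp only [act, rho_one]
    rw [h1, h1]
    simp only [Equiv.trans_apply]
    rw [← nx_finProd]
    exact hf _
  · rintro ⟨σ, hσ⟩
    have : ∀ i, ∃ e : Equiv.Perm (Fin q), ∀ j,
        (graphOf x).Adj (σ (act e (i, j))) (σ (act e (nxp (i, j)))) :=
      fun i => (seg_iff _ _ _).1 (hσ i)
    choose e he using this
    refine ⟨finProdFinEquiv.symm.trans ((shuf e).trans σ), fun r => ?_⟩
    obtain ⟨⟨i, j⟩, rfl⟩ := finProdFinEquiv.surjective r
    rw [nx_finProd]
    simp only [Equiv.trans_apply, Equiv.symm_apply_apply]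
    have h1 := he i j
    have h2 : shuf e (i, j) = act (e i) (i, j) := rfl
    have h4 : shuf e (nxp (i, j)) = act (e i) (nxp (i, j)) := by
      rw [nxp]
      split_ifs with h
      · rfl
      · rw [shuf_apply]; simp only [act, rho_zero]
    rw [h2, h4]
    exact h1

/-- **Upper bound.** -/
theorem upper (t q : ℕ) (h3 : 3 ≤ t * (q + 1)) :
    ∃ (m : ℕ) (T : Fin m → Fin t → (Edge (t * (q + 1)) → Bool) → Bool),
      m * (q !) ^ t ≤ (t * (q + 1))! ∧
      (∀ w j, Monotone (T w j)) ∧ (∀ w j, Reads ((q + 2).choose 2) (T w j)) ∧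
      (∀ x, (graphOf x).IsHamiltonian ↔ ∃ w, ∀ j, T w j x = true) := by
  classical
  set Φ : (Fin t × Fin (q + 1) ≃ Fin (t * (q + 1))) →
    (Fin t → (Edge (t * (q + 1)) → Bool) → Bool) := fun σ => seg σ with hΦ
  set I := (univ : Finset (Fin t × Fin (q + 1) ≃ Fin (t * (q + 1)))).image Φ with hI
  refine ⟨#I, fun w => (I.equivFin.symm w).1, ?_, ?_, ?_, ?_⟩
  · have h1 : (q !) ^ t * #I ≤ #(univ : Finset (Fin t × Fin (q + 1) ≃ Fin (t * (q + 1)))) := by
      apply mul_card_image_le_card
      intro a ha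
      obtain ⟨σ, -, rfl⟩ := mem_image.1 ha
      have h2 : #(univ : Finset (Fin t → Equiv.Perm (Fin q))) = (q !) ^ t := by
        rw [card_univ, Fintype.card_fun, Fintype.card_perm, Fintype.card_fin, Fintype.card_fin]
      rw [← h2]
      apply card_le_card_of_injOn (fun e => (shuf e).trans σ)
      · intro e _
        rw [mem_coe, mem_filter]
        exact ⟨mem_univ _, seg_shuf σ e⟩
      · intro e _ e' _ h
        funext i
        apply rho_inj
        intro j
        have h4 : σ (shuf e (i, j)) = σ (shuf e' (i, j)) := DFunLike.congr_fun h (i, j)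
        have h5 := σ.injective h4
        rw [shuf_apply, shuf_apply] at h5
        exact (Prod.ext_iff.1 h5).2
    have h2 : #(univ : Finset (Fin t × Fin (q + 1) ≃ Fin (t * (q + 1)))) = (t * (q + 1))! := by
      rw [card_univ, Fintype.card_equiv finProdFinEquiv, Fintype.card_prod, Fintype.card_fin,
        Fintype.card_fin]
    rw [h2, mul_comm] at h1
    exact h1
  · intro w j
    obtain ⟨σ, -, hσ⟩ := mem_image.1 (I.equivFin.symm w).2
    simp only
    rw [← hσ]
    exact seg_mono σ j
  · intro w j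
    obtain ⟨σ, -, hσ⟩ := mem_image.1 (I.equivFin.symm w).2
    simp only
    rw [← hσ]
    exact seg_reads σ j
  · intro x
    rw [ham_iff_seg h3]
    constructor
    · rintro ⟨σ, hσ⟩
      refine ⟨I.equivFin ⟨Φ σ, mem_image_of_mem _ (mem_univ _)⟩, fun j => ?_⟩
      simp only [Equiv.symm_apply_apply]
      exact hσ j
    · rintro ⟨w, hw⟩
      obtain ⟨σ, -, hσ⟩ := mem_image.1 (I.equivFin.symm w).2
      refine ⟨σ, fun i => ?_⟩
      have := hw i
      simp only at this
      rw [← hσ] at this
      exact this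

end Pool.Agent.V7H68.Ham
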