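import Mathlib
import Pool.Agent.V7H68.Ham.Upper

/-! Arbitrary (not necessarily monotone) gates that read few inputs. -/

set_option autoImplicit false

open Finset
open scoped Nat

namespace Pool.Agent.V7H68.Ham

variable {n : ℕ}

/-- the edges of the Hamilton cycle that visits the vertices in the cyclic order `f` -/
def cedges (f : Equiv.Perm (Fin n)) : Finset (Edge n) :=
  univ.filter (fun e => ∃ i, (f i = e.1.1 ∧ f (nx i) = e.1.2) ∨ (f i = e.1.2 ∧ f (nx i) = e.1.1))

/-- the input with edge set `y` -/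
def ind (y : Finset (Edge n)) : Edge n → Bool := fun e => decide (e ∈ y)

lemma nx_ne (hn : 3 ≤ n) (i : Fin n) : nx i ≠ i := by
  intro h
  have h1 := congrArg Fin.val h
  simp only [nx] at h1
  have := i.isLt
  rcases lt_or_ge (i.val + 1) n with h2 | h2
  · rw [Nat.mod_eq_of_lt h2] at h1; omega
  · have h3 : i.val + 1 = n := by omega
    rw [h3, Nat.mod_self] at h1; omega

lemma nx_nx_ne (hn : 3 ≤ n) (i : Fin n) : nx (nx i) ≠ i := by
  intro h
  have h1 := congrArg Fin.val h
  simp only [nx] at h1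
  have := i.isLt
  rcases lt_or_ge (i.val + 1) n with h2 | h2
  · rw [Nat.mod_eq_of_lt h2] at h1
    rcases lt_or_ge (i.val + 1 + 1) n with h4 | h4
    · rw [Nat.mod_eq_of_lt h4] at h1; omega
    · have h3 : i.val + 1 + 1 = n := by omega
      rw [h3, Nat.mod_self] at h1; omega
  · have h3 : i.val + 1 = n := by omega
    rw [h3, Nat.mod_self, Nat.mod_eq_of_lt (by omega)] at h1; omega

lemma nx_inj (hn : 3 ≤ n) {i j : Fin n} (h : nx i = nx j) : i = j := by
  have h1 := congrArg Fin.val h
  simp only [nx] at h1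
  have hi := i.isLt
  have hj := j.isLt
  apply Fin.ext
  rcases lt_or_ge (i.val + 1) n with h2 | h2 <;> rcases lt_or_ge (j.val + 1) n with h3 | h3
  · rw [Nat.mod_eq_of_lt h2, Nat.mod_eq_of_lt h3] at h1; omega
  · have h4 : j.val + 1 = n := by omega
    rw [Nat.mod_eq_of_lt h2, h4, Nat.mod_self] at h1; omega
  · have h4 : i.val + 1 = n := by omega
    rw [Nat.mod_eq_of_lt h3, h4, Nat.mod_self] at h1; omega
  · omega

/-- the edge joining two vertices -/
def mk (u v : Fin n) (h : u ≠ v) : Edge n :=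
  if h' : u < v then ⟨(u, v), h'⟩ else ⟨(v, u), lt_of_le_of_ne (not_lt.1 h') h.symm⟩

lemma mk_cases (u v : Fin n) (h : u ≠ v) :
    ((mk u v h).1.1 = u ∧ (mk u v h).1.2 = v) ∨ ((mk u v h).1.1 = v ∧ (mk u v h).1.2 = u) := by
  rw [mk]
  split_ifs with h'
  · exact Or.inl ⟨rfl, rfl⟩
  · exact Or.inr ⟨rfl, rfl⟩

lemma edge_eq {e e' : Edge n} (h : (e.1.1 = e'.1.1 ∧ e.1.2 = e'.1.2) ∨
    (e.1.1 = e'.1.2 ∧ e.1.2 = e'.1.1)) : e = e' := by
  rcases h with h | h
  · exact Subtype.ext (Prod.ext h.1 h.2)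
  · have h1 := e.2
    have h2 := e'.2
    rw [h.1, h.2] at h1
    exact absurd (h1.trans h2) (lt_irrefl _)

lemma card_cedges (hn : 3 ≤ n) (f : Equiv.Perm (Fin n)) : #(cedges f) = n := by
  have hne : ∀ i, f i ≠ f (nx i) := fun i h => nx_ne hn i (f.injective h).symm
  have h1 : cedges f = univ.image (fun i => mk (f i) (f (nx i)) (hne i)) := by
    ext e
    simp only [cedges, mem_filter, mem_univ, true_and, mem_image]
    constructor
    · rintro ⟨i, h⟩
      refine ⟨i, edge_eq ?_⟩
      rcases mk_cases (f i) (f (nx i)) (hne i) with h2 | h2 <;> rcases h with h | h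
      · exact Or.inl ⟨h2.1.trans h.1, h2.2.trans h.2⟩
      · exact Or.inr ⟨h2.1.trans h.1, h2.2.trans h.2⟩
      · exact Or.inr ⟨h2.1.trans h.2, h2.2.trans h.1⟩
      · exact Or.inl ⟨h2.1.trans h.2, h2.2.trans h.1⟩
    · rintro ⟨i, rfl⟩
      refine ⟨i, ?_⟩
      rcases mk_cases (f i) (f (nx i)) (hne i) with h2 | h2
      · exact Or.inl ⟨h2.1.symm, h2.2.symm⟩
      · exact Or.inr ⟨h2.2.symm, h2.1.symm⟩
  rw [h1, card_image_of_injective, card_univ, Fintype.card_fin]
  intro i j hij
  simp only at hij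
  have h2 : (f i = f j ∧ f (nx i) = f (nx j)) ∨ (f i = f (nx j) ∧ f (nx i) = f j) := by
    rcases mk_cases (f i) (f (nx i)) (hne i) with h3 | h3 <;>
      rcases mk_cases (f j) (f (nx j)) (hne j) with h4 | h4 <;> rw [hij] at h3
    · exact Or.inl ⟨h3.1.symm.trans h4.1, h3.2.symm.trans h4.2⟩
    · exact Or.inr ⟨h3.1.symm.trans h4.1, h3.2.symm.trans h4.2⟩
    · exact Or.inr ⟨h3.2.symm.trans h4.2, h3.1.symm.trans h4.1⟩
    · exact Or.inl ⟨h3.2.symm.trans h4.2, h3.1.symm.trans h4.1⟩
  rcases h2 with h2 | h2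
  · exact f.injective h2.1
  · exfalso
    have h5 := f.injective h2.1
    have h6 := f.injective h2.2
    rw [h5] at h6
    exact nx_nx_ne hn j h6

/-- adjacency in the cycle -/
lemma cedges_adj (f : Equiv.Perm (Fin n)) {u v : Fin n} (h : (graphOf (ind (cedges f))).Adj u v) :
    ∃ i, (f i = u ∧ f (nx i) = v) ∨ (f i = v ∧ f (nx i) = u) := by
  rw [graphOf_adj] at h
  simp only [ind, decide_eq_true_eq, cedges, mem_filter, mem_univ, true_and] at h
  rcases h with ⟨_, i, hi⟩ | ⟨_, i, hi⟩
  · exact ⟨i, hi⟩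
  · exact ⟨i, hi.symm⟩

lemma adj_cedges (hn : 3 ≤ n) (f : Equiv.Perm (Fin n)) (i : Fin n) :
    (graphOf (ind (cedges f))).Adj (f i) (f (nx i)) := by
  have hne : f i ≠ f (nx i) := fun h => nx_ne hn i (f.injective h).symm
  rw [graphOf_adj]
  simp only [ind, decide_eq_true_eq, cedges, mem_filter, mem_univ, true_and]
  rcases lt_or_gt_of_ne hne with h | h
  · exact Or.inl ⟨h, i, Or.inl ⟨rfl, rfl⟩⟩
  · exact Or.inr ⟨h, i, Or.inr ⟨rfl, rfl⟩⟩

lemma ham_cedges (hn : 3 ≤ n) (f : Equiv.Perm (Fin n)) :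
    (graphOf (ind (cedges f))).IsHamiltonian := by
  rw [ham_iff_perm hn]
  exact ⟨f, adj_cedges hn f⟩

lemma ham_subset (hn : 3 ≤ n) {y : Finset (Edge n)} (h : (graphOf (ind y)).IsHamiltonian) :
    ∃ f, cedges f ⊆ y := by
  rw [ham_iff_perm hn] at h
  obtain ⟨f, hf⟩ := h
  refine ⟨f, fun e he => ?_⟩
  simp only [cedges, mem_filter, mem_univ, true_and] at he
  obtain ⟨i, hi⟩ := he
  have h1 := hf i
  rw [graphOf_adj] at h1
  simp only [ind, decide_eq_true_eq] at h1
  rcases hi with hi | hi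
  · rw [hi.1, hi.2] at h1
    rcases h1 with ⟨h2, h3⟩ | ⟨h2, h3⟩
    · exact h3
    · exact absurd (h2.trans e.2) (lt_irrefl _)
  · rw [hi.1, hi.2] at h1
    rcases h1 with ⟨h2, h3⟩ | ⟨h2, h3⟩
    · exact absurd (h2.trans e.2) (lt_irrefl _)
    · exact h3

/-- a cyclic order is determined by its edge set and its first two members -/
lemma eq_of_cedges (hn : 3 ≤ n) {f g : Equiv.Perm (Fin n)} (h : cedges f = cedges g)
    (h0 : f ⟨0, by omega⟩ = g ⟨0, by omega⟩) (h1 : f ⟨1, by omega⟩ = g ⟨1, by omega⟩) : f = g := by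
  have key : ∀ (j : ℕ) (hj : j + 1 < n), f ⟨j, by omega⟩ = g ⟨j, by omega⟩ ∧
      f ⟨j + 1, hj⟩ = g ⟨j + 1, hj⟩ := by
    intro j
    induction j with
    | zero => intro hj; exact ⟨h0, h1⟩
    | succ j ih =>
      intro hj
      obtain ⟨h2, h3⟩ := ih (by omega)
      refine ⟨h3, ?_⟩
      have e1 : nx (⟨j, by omega⟩ : Fin n) = ⟨j + 1, by omega⟩ := by
        apply Fin.ext; simp only [nx]; exact Nat.mod_eq_of_lt (by omega)
      have e2 : nx (⟨j + 1, by omega⟩ : Fin n) = ⟨j + 1 + 1, hj⟩ := by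
        apply Fin.ext; simp only [nx]; exact Nat.mod_eq_of_lt (by omega)
      -- `g (j+2)` is adjacent to `g (j+1) = f (j+1)` in the common cycle
      have h4 := adj_cedges hn g ⟨j + 1, by omega⟩
      rw [← h] at h4
      obtain ⟨i, hi⟩ := cedges_adj f h4
      rw [e2, ← h3] at hi
      rcases hi with ⟨h5, h6⟩ | ⟨h5, h6⟩
      · rw [f.injective h5, e2] at h6
        exact h6
      · exfalso
        have h7 : nx i = nx ⟨j, by omega⟩ := by rw [e1]; exact f.injective h6
        rw [nx_inj hn h7, h2] at h5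
        have h8 := congrArg Fin.val (g.injective h5)
        simp only at h8
        omega
  ext i
  congr 1
  rcases Nat.lt_or_ge (i.val + 1) n with h2 | h2
  · exact (key i.val h2).1
  · have h3 : i.val = (n - 2) + 1 := by have := i.isLt; omega
    have h4 := (key (n - 2) (by omega)).2
    have h5 : i = ⟨n - 2 + 1, by omega⟩ := Fin.ext h3
    rw [h5]
    exact h4

open scoped Classical in
lemma card_fiber (hn : 3 ≤ n) (C : Finset (Edge n)) :
    #{f : Equiv.Perm (Fin n) | cedges f = C} ≤ 2 * n := by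
  rcases ({f : Equiv.Perm (Fin n) | cedges f = C} : Finset _).eq_empty_or_nonempty with h | h
  · rw [h]; simp
  obtain ⟨f₀, hf₀⟩ := h
  rw [mem_filter] at hf₀
  have hf0 := hf₀.2
  -- code a cyclic order by its start and by the direction
  have hne : ∀ (g : Equiv.Perm (Fin n)), cedges g = C → ∃ i, f₀ i = g ⟨0, by omega⟩ ∧
      (f₀ (nx i) = g ⟨1, by omega⟩ ∨ ∃ j, nx j = i ∧ f₀ j = g ⟨1, by omega⟩) := by
    intro g hg
    have h1 := adj_cedges hn g ⟨0, by omega⟩
    rw [hg, ← hf0] at h1
    have e1 : nx (⟨0, by omega⟩ : Fin n) = ⟨1, by omega⟩ := by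
      apply Fin.ext; simp only [nx]; exact Nat.mod_eq_of_lt (by omega)
    rw [e1] at h1
    obtain ⟨i, hi | hi⟩ := cedges_adj f₀ h1
    · exact ⟨i, hi.1, Or.inl hi.2⟩
    · exact ⟨nx i, hi.2, Or.inr ⟨i, rfl, hi.1⟩⟩
  have h2 : #(univ : Finset (Bool × Fin n)) = 2 * n := by
    rw [card_univ, Fintype.card_prod, Fintype.card_bool, Fintype.card_fin]
  rw [← h2]
  apply card_le_card_of_injOn
    (fun g => (decide (f₀ (nx (f₀.symm (g ⟨0, by omega⟩))) = g ⟨1, by omega⟩), g ⟨0, by omega⟩))
  · intro g _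
    exact mem_univ _
  · intro g hg g' hg' hgg
    rw [mem_coe, mem_filter] at hg hg'
    simp only [Prod.mk.injEq, decide_eq_decide] at hgg
    obtain ⟨h3, h4⟩ := hgg
    apply eq_of_cedges hn (hg.2.trans hg'.2.symm) h4
    obtain ⟨i, hi, hi'⟩ := hne g hg.2
    obtain ⟨i2, hi2, hi2'⟩ := hne g' hg'.2
    have h5 : f₀.symm (g ⟨0, by omega⟩) = i := by rw [← hi, Equiv.symm_apply_apply]
    have h6 : f₀.symm (g' ⟨0, by omega⟩) = i2 := by rw [← hi2, Equiv.symm_apply_apply]
    have h7 : i = i2 := by rw [← h5, ← h6, h4]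
    subst h7
    rw [h5, h6] at h3
    by_cases hb : f₀ (nx i) = g ⟨1, by omega⟩
    · rw [← hb, ← h3.1 hb]
    · have hb' : ¬ f₀ (nx i) = g' ⟨1, by omega⟩ := fun h => hb (h3.2 h)
      obtain ⟨j, hj, hj'⟩ := hi'.resolve_left hb
      obtain ⟨j2, hj2, hj2'⟩ := hi2'.resolve_left hb'
      have : j = j2 := nx_inj hn (hj.trans hj2.symm)
      rw [← hj', ← hj2', this]

open scoped Classical in
/-- one conjunction of gates accepts at most `k^n` Hamilton cycles -/
theorem card_accepted_gen (hn : 3 ≤ n) (k : ℕ) {J : Type*} (T : J → (Edge n → Bool) → Bool)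
    (hloc : ∀ j, Reads k (T j))
    (hT : ∀ x, ¬ (graphOf x).IsHamiltonian → ∃ j, T j x = false) :
    #{C ∈ univ.image (cedges (n := n)) | ∀ j, T j (ind C) = true} ≤ k ^ n := by
  have key : ∀ (d : ℕ) (y : Finset (Edge n)), #y + d = n →
      #{C ∈ univ.image (cedges (n := n)) | (∀ j, T j (ind C) = true) ∧ y ⊆ C} ≤ k ^ d := by
    intro d
    induction d with
    | zero =>
      intro y hy
      rw [pow_zero, card_le_one]
      intro C hC C' hC'
      rw [mem_filter, mem_image] at hC hC'
      obtain ⟨⟨f, -, rfl⟩, -, h1⟩ := hC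
      obtain ⟨⟨f', -, rfl⟩, -, h2⟩ := hC'
      rw [← eq_of_subset_of_card_le h1 (by rw [card_cedges hn]; omega),
        ← eq_of_subset_of_card_le h2 (by rw [card_cedges hn]; omega)]
    | succ d ih =>
      intro y hy
      have h1 : ¬ (graphOf (ind y)).IsHamiltonian := by
        intro h
        obtain ⟨f, hf⟩ := ham_subset hn h
        have := card_le_card hf
        rw [card_cedges hn] at this
        omega
      obtain ⟨j, hj⟩ := hT _ h1
      obtain ⟨S, hS, hS'⟩ := hloc j
      have h2 : ({C ∈ univ.image (cedges (n := n)) | (∀ j, T j (ind C) = true) ∧ y ⊆ C}) ⊆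
          (S \ y).biUnion (fun e =>
            {C ∈ univ.image (cedges (n := n)) | (∀ j, T j (ind C) = true) ∧ insert e y ⊆ C}) := by
        intro C hC
        rw [mem_filter] at hC
        obtain ⟨h3, h4, h5⟩ := hC
        have : ∃ e ∈ S, ind C e ≠ ind y e := by
          by_contra hno
          push Not at hno
          have := hS' (ind C) (ind y) hno
          rw [h4 j, hj] at this
          exact absurd this (by decide)
        obtain ⟨e, he, hne⟩ := this
        simp only [ind, ne_eq, decide_eq_decide] at hne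
        have h6 : e ∉ y := fun h => hne ⟨fun _ => h, fun _ => h5 h⟩
        have h7 : e ∈ C := by
          by_contra h
          exact hne ⟨fun h' => absurd h' h, fun h' => absurd h' h6⟩
        rw [mem_biUnion]
        refine ⟨e, mem_sdiff.2 ⟨he, h6⟩, ?_⟩
        rw [mem_filter]
        exact ⟨h3, h4, insert_subset h7 h5⟩
      refine (card_le_card h2).trans ?_
      refine (card_biUnion_le_card_mul _ _ (k ^ d) ?_).trans ?_
      · intro e he
        apply ih
        rw [card_insert_of_notMem (mem_sdiff.1 he).2]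
        omega
      · rw [pow_succ, mul_comm]
        exact Nat.mul_le_mul_left _ ((card_le_card sdiff_subset).trans hS)
  have := key n ∅ (by simp)
  simpa using this

/-- **Lower bound, arbitrary gates.** -/
theorem lower_gen (n k m : ℕ) (hn : 3 ≤ n) (J : Fin m → Type*)
    (T : ∀ w, J w → (Edge n → Bool) → Bool) (hloc : ∀ w j, Reads k (T w j))
    (hT : ∀ x, (graphOf x).IsHamiltonian ↔ ∃ w, ∀ j, T w j x = true) :
    (n - 1)! ≤ 2 * m * k ^ n := by
  classical
  have h1 : n ! ≤ (2 * n) * #(univ.image (cedges (n := n))) := by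
    have := card_le_mul_card_image (f := cedges (n := n)) univ (2 * n)
      (fun C _ => by convert card_fiber hn C)
    rw [card_univ, Fintype.card_perm, Fintype.card_fin] at this
    exact this
  have h2 : #(univ.image (cedges (n := n))) ≤ m * k ^ n := by
    calc #(univ.image (cedges (n := n)))
        ≤ #((univ : Finset (Fin m)).biUnion (fun w =>
            {C ∈ univ.image (cedges (n := n)) | ∀ j, T w j (ind C) = true})) := by
          apply card_le_card
          intro C hC
          obtain ⟨f, -, rfl⟩ := mem_image.1 hC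
          obtain ⟨w, hw⟩ := (hT _).1 (ham_cedges hn f)
          rw [mem_biUnion]
          exact ⟨w, mem_univ _, mem_filter.2 ⟨hC, hw⟩⟩
      _ ≤ #(univ : Finset (Fin m)) * k ^ n := by
          apply card_biUnion_le_card_mul
          intro w _
          apply card_accepted_gen hn k (T w) (hloc w)
          intro x hx
          by_contra hno
          push Not at hno
          apply hx
          rw [hT]
          refine ⟨w, fun j => ?_⟩
          have := hno j
          revert this
          cases T w j x <;> simp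
      _ = m * k ^ n := by rw [card_univ, Fintype.card_fin]
  have h3 : n * (n - 1)! ≤ n * (2 * m * k ^ n) := by
    rw [Nat.mul_factorial_pred (by omega)]
    calc n ! ≤ (2 * n) * #(univ.image (cedges (n := n))) := h1
      _ ≤ (2 * n) * (m * k ^ n) := Nat.mul_le_mul_left _ h2
      _ = n * (2 * m * k ^ n) := by ring
  exact Nat.le_of_mul_le_mul_left h3 (by omega)

end Pool.Agent.V7H68.Ham
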