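import Mathlib
import Pool.Agent.V7H68.Ham.Gen

/-! Arbitrary gates that read many inputs: blow-ups of Hamilton cycles. -/

set_option autoImplicit false

open Finset
open scoped Nat

namespace Pool.Agent.V7H68.Ham

variable {t q : ℕ}

/-- vertex number `p.2` of block `p.1` -/
abbrev pt (p : Fin t × Fin (q + 1)) : Fin (t * (q + 1)) := finProdFinEquiv p

/-- the block of a vertex -/
abbrev blk (v : Fin (t * (q + 1))) : Fin t := (finProdFinEquiv.symm v).1

lemma blk_pt (p : Fin t × Fin (q + 1)) : blk (pt p) = p.1 := by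
  simp only [blk, pt, Equiv.symm_apply_apply]

/-- all edges inside the blocks -/
def inside (t q : ℕ) : Finset (Edge (t * (q + 1))) :=
  univ.filter (fun e => blk (t := t) (q := q) e.1.1 = blk (t := t) (q := q) e.1.2)

/-- a cyclic order of the blocks, with an exit and an entrance in each of them -/
abbrev Tour (t q : ℕ) := Equiv.Perm (Fin t) × (Fin t → Fin (q + 1) × Fin (q + 1))

/-- the connecting edges of a tour: from the exit of each block to the entrance of the next one -/
def conn (z : Tour t q) : Finset (Edge (t * (q + 1))) :=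
  univ.filter (fun e => ∃ i,
    (pt (z.1 i, (z.2 (z.1 i)).1) = e.1.1 ∧ pt (z.1 (nx i), (z.2 (z.1 (nx i))).2) = e.1.2) ∨
    (pt (z.1 i, (z.2 (z.1 i)).1) = e.1.2 ∧ pt (z.1 (nx i), (z.2 (z.1 (nx i))).2) = e.1.1))

/-- exits and entrances are different -/
def Ok (z : Tour t q) : Prop := ∀ P, (z.2 P).1 ≠ (z.2 P).2

lemma conn_blk (ht : 3 ≤ t) (z : Tour t q) {e : Edge (t * (q + 1))} (he : e ∈ conn z) :
    blk (t := t) (q := q) e.1.1 ≠ blk (t := t) (q := q) e.1.2 := by
  simp only [conn, mem_filter, mem_univ, true_and] at he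
  obtain ⟨i, ⟨h1, h2⟩ | ⟨h1, h2⟩⟩ := he
  · rw [← h1, ← h2, blk_pt, blk_pt]
    exact fun h => nx_ne ht i (z.1.injective h).symm
  · rw [← h1, ← h2, blk_pt, blk_pt]
    exact fun h => nx_ne ht i (z.1.injective h)

lemma card_conn (ht : 3 ≤ t) (z : Tour t q) : #(conn z) = t := by
  have hne : ∀ i, pt (z.1 i, (z.2 (z.1 i)).1) ≠ pt (z.1 (nx i), (z.2 (z.1 (nx i))).2) := by
    intro i h
    have := congrArg blk h
    rw [blk_pt, blk_pt] at this
    exact nx_ne ht i (z.1.injective this).symm
  have h1 : conn z = univ.image (fun i => mk _ _ (hne i)) := by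
    ext e
    simp only [conn, mem_filter, mem_univ, true_and, mem_image]
    constructor
    · rintro ⟨i, h⟩
      refine ⟨i, edge_eq ?_⟩
      rcases mk_cases _ _ (hne i) with h2 | h2 <;> rcases h with h | h
      · exact Or.inl ⟨h2.1.trans h.1, h2.2.trans h.2⟩
      · exact Or.inr ⟨h2.1.trans h.1, h2.2.trans h.2⟩
      · exact Or.inr ⟨h2.1.trans h.2, h2.2.trans h.1⟩
      · exact Or.inl ⟨h2.1.trans h.2, h2.2.trans h.1⟩
    · rintro ⟨i, rfl⟩
      refine ⟨i, ?_⟩
      rcases mk_cases _ _ (hne i) with h2 | h2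
      · exact Or.inl ⟨h2.1.symm, h2.2.symm⟩
      · exact Or.inr ⟨h2.2.symm, h2.1.symm⟩
  rw [h1, card_image_of_injective, card_univ, Fintype.card_fin]
  intro i j hij
  simp only at hij
  have h2 : (z.1 i = z.1 j ∧ z.1 (nx i) = z.1 (nx j)) ∨
      (z.1 i = z.1 (nx j) ∧ z.1 (nx i) = z.1 j) := by
    rcases mk_cases _ _ (hne i) with h3 | h3 <;>
      rcases mk_cases _ _ (hne j) with h4 | h4 <;> rw [hij] at h3
    · refine Or.inl ⟨?_, ?_⟩
      · have := congrArg blk (h3.1.symm.trans h4.1); rwa [blk_pt, blk_pt] at this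
      · have := congrArg blk (h3.2.symm.trans h4.2); rwa [blk_pt, blk_pt] at this
    · refine Or.inr ⟨?_, ?_⟩
      · have := congrArg blk (h3.1.symm.trans h4.1); rwa [blk_pt, blk_pt] at this
      · have := congrArg blk (h3.2.symm.trans h4.2); rwa [blk_pt, blk_pt] at this
    · refine Or.inr ⟨?_, ?_⟩
      · have := congrArg blk (h3.2.symm.trans h4.2); rwa [blk_pt, blk_pt] at this
      · have := congrArg blk (h3.1.symm.trans h4.1); rwa [blk_pt, blk_pt] at this
    · refine Or.inl ⟨?_, ?_⟩
      · have := congrArg blk (h3.2.symm.trans h4.2); rwa [blk_pt, blk_pt] at this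
      · have := congrArg blk (h3.1.symm.trans h4.1); rwa [blk_pt, blk_pt] at this
  rcases h2 with h2 | h2
  · exact z.1.injective h2.1
  · exfalso
    have h5 := z.1.injective h2.1
    have h6 := z.1.injective h2.2
    rw [h5] at h6
    exact nx_nx_ne ht j h6

lemma adj_ind {n : ℕ} {y : Finset (Edge n)} {u v : Fin n} (h : u ≠ v) :
    (graphOf (ind y)).Adj u v ↔ mk u v h ∈ y := by
  rw [graphOf_adj, mk]
  simp only [ind, decide_eq_true_eq]
  split_ifs with h'
  · constructor
    · rintro (⟨_, h2⟩ | ⟨h1, _⟩)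
      · exact h2
      · exact absurd (h1.trans h') (lt_irrefl _)
    · intro h2; exact Or.inl ⟨h', h2⟩
  · have h1 : v < u := lt_of_le_of_ne (not_lt.1 h') h.symm
    constructor
    · rintro (⟨h2, _⟩ | ⟨_, h2⟩)
      · exact absurd h2 h'
      · exact h2
    · intro h2; exact Or.inr ⟨h1, h2⟩

/-- two prescribed values can be attained at two given places -/
lemma exists_perm {α : Type*} [DecidableEq α] {x y a b : α} (hxy : x ≠ y) (hab : a ≠ b) :
    ∃ π : Equiv.Perm α, π x = a ∧ π y = b := by
  refine ⟨(Equiv.swap ((Equiv.swap x a) y) b) * Equiv.swap x a, ?_, ?_⟩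
  · rw [Equiv.Perm.mul_apply, Equiv.swap_apply_left]
    apply Equiv.swap_apply_of_ne_of_ne _ hab
    intro h
    have h2 := (Equiv.swap x a).injective (h.symm.trans (Equiv.swap_apply_left x a).symm)
    exact hxy h2.symm
  · rw [Equiv.Perm.mul_apply, Equiv.swap_apply_left]

lemma ham_conn (ht : 3 ≤ t) (hq : 1 ≤ q) (z : Tour t q) (hz : Ok z) :
    (graphOf (ind (conn z ∪ inside t q))).IsHamiltonian := by
  have hn : 3 ≤ t * (q + 1) := by nlinarith
  have h0l : (0 : Fin (q + 1)) ≠ Fin.last q := by
    intro h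
    have := congrArg Fin.val h
    simp at this
    omega
  have hπ : ∀ P : Fin t, ∃ π : Equiv.Perm (Fin (q + 1)), π 0 = (z.2 P).2 ∧
      π (Fin.last q) = (z.2 P).1 := fun P => exists_perm h0l (hz P).symm
  choose π hπ0 hπl using hπ
  set G : Fin t × Fin (q + 1) ≃ Fin t × Fin (q + 1) :=
    Equiv.prodShear z.1 (fun i => π (z.1 i)) with hG
  have hGa : ∀ p, G p = (z.1 p.1, π (z.1 p.1) p.2) := fun p => rfl
  rw [ham_iff_perm hn]
  refine ⟨finProdFinEquiv.symm.trans (G.trans finProdFinEquiv), fun r => ?_⟩
  obtain ⟨⟨i, j⟩, rfl⟩ := finProdFinEquiv.surjective r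
  rw [nx_finProd]
  simp only [Equiv.trans_apply, Equiv.symm_apply_apply]
  have hne : finProdFinEquiv (G (i, j)) ≠ finProdFinEquiv (G (nxp (i, j))) := by
    intro h
    have h1 := G.injective (finProdFinEquiv.injective h)
    have h2 := nx_ne hn (finProdFinEquiv (i, j))
    rw [nx_finProd] at h2
    exact h2 (by rw [← h1])
  rw [adj_ind hne]
  by_cases hj : j.val + 1 < q + 1
  · apply mem_union_right
    have h1 : nxp (i, j) = (i, ⟨j.val + 1, hj⟩) := by rw [nxp, dif_pos hj]
    simp only [inside, mem_filter, mem_univ, true_and]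
    have h2 : blk (t := t) (q := q) (finProdFinEquiv (G (i, j))) =
        blk (t := t) (q := q) (finProdFinEquiv (G (nxp (i, j)))) := by
      rw [h1, hGa, hGa]
      simp only [blk, Equiv.symm_apply_apply]
    rcases mk_cases _ _ hne with h | h
    · rw [h.1, h.2]; exact h2
    · rw [h.1, h.2]; exact h2.symm
  · apply mem_union_left
    have h1 : nxp (i, j) = (nx i, 0) := by rw [nxp, dif_neg hj]
    have hj' : j = Fin.last q := by
      apply Fin.ext
      simp only [Fin.val_last]
      have := j.isLt
      omega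
    have e1 : finProdFinEquiv (G (i, j)) = pt (z.1 i, (z.2 (z.1 i)).1) := by
      rw [hGa, hj']
      simp only [hπl]
    have e2 : finProdFinEquiv (G (nxp (i, j))) = pt (z.1 (nx i), (z.2 (z.1 (nx i))).2) := by
      rw [h1, hGa]
      simp only [hπ0]
    simp only [conn, mem_filter, mem_univ, true_and]
    refine ⟨i, ?_⟩
    rcases mk_cases _ _ hne with h | h
    · rw [h.1, h.2, e1, e2]; exact Or.inl ⟨rfl, rfl⟩
    · rw [h.1, h.2, e1, e2]; exact Or.inr ⟨rfl, rfl⟩

lemma nx_closed {n : ℕ} (W : Fin n → Prop) {r₀ : Fin n} (h0 : W r₀)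
    (h : ∀ r, W r → W (nx r)) (r : Fin n) : W r := by
  have hn := r.isLt
  have h1 : ∀ j (hj : r₀.val + j < n), W ⟨r₀.val + j, hj⟩ := by
    intro j
    induction j with
    | zero => intro _; exact h0
    | succ j ih =>
      intro hj
      have h2 := h _ (ih (by omega))
      have h3 : nx (⟨r₀.val + j, by omega⟩ : Fin n) = ⟨r₀.val + (j + 1), hj⟩ := by
        apply Fin.ext
        simp only [nx]
        rw [Nat.mod_eq_of_lt (by omega)]
        omega
      rw [h3] at h2
      exact h2
  have h2 : W ⟨0, by omega⟩ := by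
    have h3 := h _ (h1 (n - 1 - r₀.val) (by have := r₀.isLt; omega))
    have h4 : nx (⟨r₀.val + (n - 1 - r₀.val), by have := r₀.isLt; omega⟩ : Fin n) =
        ⟨0, by omega⟩ := by
      apply Fin.ext
      simp only [nx]
      have : r₀.val + (n - 1 - r₀.val) + 1 = n := by have := r₀.isLt; omega
      rw [this, Nat.mod_self]
    rw [h4] at h3
    exact h3
  have h3 : ∀ j (hj : j < n), W ⟨j, hj⟩ := by
    intro j
    induction j with
    | zero => intro _; exact h2
    | succ j ih =>
      intro hj
      have h4 := h _ (ih (by omega))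
      have h5 : nx (⟨j, by omega⟩ : Fin n) = ⟨j + 1, hj⟩ := by
        apply Fin.ext
        simp only [nx]
        rw [Nat.mod_eq_of_lt hj]
      rw [h5] at h4
      exact h4
  exact h3 r.val r.isLt

/-- few connecting edges are not enough for a Hamilton cycle -/
lemma few_not_ham (ht : 3 ≤ t) (y : Finset (Edge (t * (q + 1)))) (hy : #y < t) :
    ¬ (graphOf (ind (y ∪ inside t q))).IsHamiltonian := by
  have hn : 3 ≤ t * (q + 1) := by nlinarith
  rw [ham_iff_perm hn]
  rintro ⟨g, hg⟩
  have hne : ∀ r, g r ≠ g (nx r) := fun r h => nx_ne hn r (g.injective h).symm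
  -- each block is left somewhere
  have hex : ∀ P : Fin t, ∃ r, blk (t := t) (q := q) (g r) = P ∧
      blk (t := t) (q := q) (g (nx r)) ≠ P := by
    intro P
    by_contra hno
    push Not at hno
    have h1 : ∀ r, blk (t := t) (q := q) (g r) = P := by
      apply nx_closed (fun r => blk (t := t) (q := q) (g r) = P) (r₀ := g.symm (pt (P, 0)))
      · rw [Equiv.apply_symm_apply, blk_pt]
      · exact hno
    -- another block
    have : Nontrivial (Fin t) := Fin.nontrivial_iff_two_le.2 (by omega)
    obtain ⟨Q, hQ⟩ := exists_ne P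
    have h2 := h1 (g.symm (pt (Q, 0)))
    rw [Equiv.apply_symm_apply, blk_pt] at h2
    exact hQ h2
  choose r hr1 hr2 using hex
  have hsub : univ.image (fun P => mk (g (r P)) (g (nx (r P))) (hne _)) ⊆ y := by
    intro e he
    obtain ⟨P, -, rfl⟩ := mem_image.1 he
    have h1 := (adj_ind (hne (r P))).1 (hg (r P))
    rcases mem_union.1 h1 with h2 | h2
    · exact h2
    · exfalso
      simp only [inside, mem_filter, mem_univ, true_and] at h2
      rcases mk_cases _ _ (hne (r P)) with h | h
      · rw [h.1, h.2, hr1] at h2; exact hr2 P h2.symm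
      · rw [h.1, h.2, hr1] at h2; exact hr2 P h2
  have hinj : Function.Injective (fun P => mk (g (r P)) (g (nx (r P))) (hne _)) := by
    intro P Q hPQ
    simp only at hPQ
    have h2 : (g (r P) = g (r Q) ∧ g (nx (r P)) = g (nx (r Q))) ∨
        (g (r P) = g (nx (r Q)) ∧ g (nx (r P)) = g (r Q)) := by
      rcases mk_cases _ _ (hne (r P)) with h3 | h3 <;>
        rcases mk_cases _ _ (hne (r Q)) with h4 | h4 <;> rw [hPQ] at h3
      · exact Or.inl ⟨h3.1.symm.trans h4.1, h3.2.symm.trans h4.2⟩
      · exact Or.inr ⟨h3.1.symm.trans h4.1, h3.2.symm.trans h4.2⟩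
      · exact Or.inr ⟨h3.2.symm.trans h4.2, h3.1.symm.trans h4.1⟩
      · exact Or.inl ⟨h3.2.symm.trans h4.2, h3.1.symm.trans h4.1⟩
    rcases h2 with h2 | h2
    · rw [← hr1 P, ← hr1 Q, h2.1]
    · exfalso
      have h5 := g.injective h2.1
      have h6 := g.injective h2.2
      rw [h5] at h6
      exact nx_nx_ne hn _ h6
  have h3 := card_le_card hsub
  rw [card_image_of_injective _ hinj, card_univ, Fintype.card_fin] at h3
  omega

/-- the edges between blocks that are used by a set of edges between vertices -/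
def proj (C : Finset (Edge (t * (q + 1)))) : Finset (Edge t) :=
  univ.filter (fun d => ∃ e ∈ C,
    (blk (t := t) (q := q) e.1.1 = d.1.1 ∧ blk (t := t) (q := q) e.1.2 = d.1.2) ∨
    (blk (t := t) (q := q) e.1.1 = d.1.2 ∧ blk (t := t) (q := q) e.1.2 = d.1.1))

lemma proj_conn (ht : 3 ≤ t) (z : Tour t q) : proj (conn z) = cedges z.1 := by
  ext d
  simp only [proj, cedges, conn, mem_filter, mem_univ, true_and]
  constructor
  · rintro ⟨e, ⟨i, h1⟩, h2⟩
    refine ⟨i, ?_⟩
    rcases h1 with ⟨h1, h1'⟩ | ⟨h1, h1'⟩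
    · rw [← h1, ← h1', blk_pt, blk_pt] at h2
      exact h2
    · rw [← h1, ← h1', blk_pt, blk_pt] at h2
      rcases h2 with h2 | h2
      · exact Or.inr ⟨h2.2, h2.1⟩
      · exact Or.inl ⟨h2.2, h2.1⟩
  · rintro ⟨i, h⟩
    have hne : pt (z.1 i, (z.2 (z.1 i)).1) ≠ pt (z.1 (nx i), (z.2 (z.1 (nx i))).2) := by
      intro h
      have := congrArg blk h
      rw [blk_pt, blk_pt] at this
      exact nx_ne ht i (z.1.injective this).symm
    refine ⟨mk _ _ hne, ⟨i, ?_⟩, ?_⟩
    · rcases mk_cases _ _ hne with h2 | h2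
      · exact Or.inl ⟨h2.1.symm, h2.2.symm⟩
      · exact Or.inr ⟨h2.2.symm, h2.1.symm⟩
    · rcases mk_cases _ _ hne with h2 | h2
      · rw [h2.1, h2.2, blk_pt, blk_pt]; exact h
      · rw [h2.1, h2.2, blk_pt, blk_pt]
        rcases h with h | h
        · exact Or.inr ⟨h.2, h.1⟩
        · exact Or.inl ⟨h.2, h.1⟩

/-- given the order of the blocks, the connecting edges determine exits and entrances -/
lemma ports_eq (ht : 3 ≤ t) {z z' : Tour t q} (h1 : z.1 = z'.1) (h : conn z = conn z') : z = z' := by
  obtain ⟨f, p⟩ := z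
  obtain ⟨f', p'⟩ := z'
  simp only at h1
  subst h1
  have key : ∀ i, (p (f i)).1 = (p' (f i)).1 ∧ (p (f (nx i))).2 = (p' (f (nx i))).2 := by
    intro i
    have hne : pt (f i, (p (f i)).1) ≠ pt (f (nx i), (p (f (nx i))).2) := by
      intro h
      have := congrArg blk h
      rw [blk_pt, blk_pt] at this
      exact nx_ne ht i (f.injective this).symm
    have h2 : mk _ _ hne ∈ conn (f, p) := by
      simp only [conn, mem_filter, mem_univ, true_and]
      refine ⟨i, ?_⟩
      rcases mk_cases _ _ hne with h2 | h2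
      · exact Or.inl ⟨h2.1.symm, h2.2.symm⟩
      · exact Or.inr ⟨h2.2.symm, h2.1.symm⟩
    rw [h] at h2
    simp only [conn, mem_filter, mem_univ, true_and] at h2
    obtain ⟨i', h3⟩ := h2
    have h4 : (pt (f i', (p' (f i')).1) = pt (f i, (p (f i)).1) ∧
        pt (f (nx i'), (p' (f (nx i'))).2) = pt (f (nx i), (p (f (nx i))).2)) ∨
        (pt (f i', (p' (f i')).1) = pt (f (nx i), (p (f (nx i))).2) ∧
        pt (f (nx i'), (p' (f (nx i'))).2) = pt (f i, (p (f i)).1)) := by
      rcases mk_cases _ _ hne with h5 | h5 <;> rw [h5.1, h5.2] at h3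
      · exact h3
      · exact h3.symm
    rcases h4 with ⟨h5, h6⟩ | ⟨h5, h6⟩
    · have h7 := finProdFinEquiv.injective h5
      have h8 := finProdFinEquiv.injective h6
      simp only [Prod.mk.injEq] at h7 h8
      have h9 : i' = i := f.injective h7.1
      subst h9
      exact ⟨h7.2.symm, h8.2.symm⟩
    · exfalso
      have h7 := finProdFinEquiv.injective h5
      have h8 := finProdFinEquiv.injective h6
      simp only [Prod.mk.injEq] at h7 h8
      have h9 := f.injective h7.1
      have h10 := f.injective h8.1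
      rw [h9] at h10
      exact nx_nx_ne ht _ h10
  have hsurj : ∀ P : Fin t, ∃ i, nx i = P := by
    have : Function.Injective (nx (n := t)) := fun i j h => nx_inj ht h
    exact (Finite.injective_iff_surjective.1 this)
  congr 1
  funext P
  obtain ⟨i, rfl⟩ := f.surjective P
  obtain ⟨j, hj⟩ := hsurj i
  apply Prod.ext
  · exact (key i).1
  · have := (key j).2
    rw [hj] at this
    exact this

open scoped Classical in
/-- tours in the strict sense -/
noncomputable def tours (t q : ℕ) : Finset (Tour t q) := univ.filter (fun z => Ok z)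

lemma card_tours : #(tours t q) = t ! * ((q + 1) * q) ^ t := by
  classical
  have h1 : tours t q = (univ : Finset (Equiv.Perm (Fin t))) ×ˢ
      (Fintype.piFinset (fun _ : Fin t =>
        (univ.filter (fun p : Fin (q + 1) × Fin (q + 1) => p.1 ≠ p.2)))) := by
    ext z
    rw [tours, mem_filter, mem_product, Fintype.mem_piFinset]
    simp only [Ok, mem_filter, mem_univ, true_and]
  rw [h1, card_product, card_univ, Fintype.card_perm, Fintype.card_fin, Fintype.card_piFinset]
  congr 1
  rw [prod_const, card_univ, Fintype.card_fin]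
  congr 1
  have h2 : (univ.filter (fun p : Fin (q + 1) × Fin (q + 1) => p.1 ≠ p.2)) =
      (univ : Finset (Fin (q + 1))).offDiag := by
    ext p; simp [mem_offDiag]
  rw [h2, offDiag_card, card_univ, Fintype.card_fin]
  have : (q + 1) * (q + 1) = (q + 1) * q + (q + 1) := by ring
  omega

lemma card_tour_fiber (ht : 3 ≤ t) (C : Finset (Edge (t * (q + 1)))) :
    #{z ∈ tours t q | conn z = C} ≤ 2 * t := by
  classical
  refine le_trans ?_ (card_fiber ht (proj C))
  apply card_le_card_of_injOn (fun z => z.1)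
  · intro z hz
    rw [mem_coe, mem_filter] at hz
    rw [mem_coe, mem_filter]
    refine ⟨mem_univ _, ?_⟩
    rw [← hz.2, proj_conn ht]
  · intro z hz z' hz' h
    rw [mem_coe, mem_filter] at hz hz'
    exact ports_eq ht h (hz.2.trans hz'.2.symm)

open scoped Classical in
theorem card_accepted_blow (ht : 3 ≤ t) (k : ℕ) {J : Type*}
    (T : J → (Edge (t * (q + 1)) → Bool) → Bool)
    (hloc : ∀ j, Reads k (T j))
    (hT : ∀ x, ¬ (graphOf x).IsHamiltonian → ∃ j, T j x = false) :
    #{C ∈ (tours t q).image conn | ∀ j, T j (ind (C ∪ inside t q)) = true} ≤ k ^ t := by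
  have key : ∀ (d : ℕ) (y : Finset (Edge (t * (q + 1)))), #y + d = t →
      #{C ∈ (tours t q).image conn | (∀ j, T j (ind (C ∪ inside t q)) = true) ∧ y ⊆ C} ≤
        k ^ d := by
    intro d
    induction d with
    | zero =>
      intro y hy
      rw [pow_zero, card_le_one]
      intro C hC C' hC'
      rw [mem_filter, mem_image] at hC hC'
      obtain ⟨⟨f, -, rfl⟩, -, h1⟩ := hC
      obtain ⟨⟨f', -, rfl⟩, -, h2⟩ := hC'
      rw [← eq_of_subset_of_card_le h1 (by rw [card_conn ht]; omega),
        ← eq_of_subset_of_card_le h2 (by rw [card_conn ht]; omega)]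
    | succ d ih =>
      intro y hy
      have h1 : ¬ (graphOf (ind (y ∪ inside t q))).IsHamiltonian := few_not_ham ht y (by omega)
      obtain ⟨j, hj⟩ := hT _ h1
      obtain ⟨S, hS, hS'⟩ := hloc j
      have h2 : ({C ∈ (tours t q).image conn |
            (∀ j, T j (ind (C ∪ inside t q)) = true) ∧ y ⊆ C}) ⊆
          (S \ y).biUnion (fun e => {C ∈ (tours t q).image conn |
            (∀ j, T j (ind (C ∪ inside t q)) = true) ∧ insert e y ⊆ C}) := by
        intro C hC
        rw [mem_filter] at hC
        obtain ⟨h3, h4, h5⟩ := hC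
        have : ∃ e ∈ S, ind (C ∪ inside t q) e ≠ ind (y ∪ inside t q) e := by
          by_contra hno
          push Not at hno
          have := hS' _ _ hno
          rw [h4 j, hj] at this
          exact absurd this (by decide)
        obtain ⟨e, he, hne⟩ := this
        simp only [ind, ne_eq, decide_eq_decide, mem_union] at hne
        have h6 : e ∉ y := fun h => hne ⟨fun _ => Or.inl h, fun _ => Or.inl (h5 h)⟩
        have h7 : e ∈ C := by
          by_contra h
          exact hne ⟨fun h' => Or.inr (h'.resolve_left h), fun h' => Or.inr (h'.resolve_left h6)⟩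
        rw [mem_biUnion]
        refine ⟨e, mem_sdiff.2 ⟨he, h6⟩, ?_⟩
        rw [mem_filter]
        exact ⟨h3, h4, insert_subset h7 h5⟩
      refine (card_le_card h2).trans ?_
      refine (card_biUnion_le_card_mul _ _ (k ^ d) ?_).trans ?_
      · intro e he
        apply ih
        rw [card_insert_of_notMem (mem_sdiff.1 he).2]
        omega
      · rw [pow_succ, mul_comm]
        exact Nat.mul_le_mul_left _ ((card_le_card sdiff_subset).trans hS)
  have := key t ∅ (by simp)
  simpa using this

/-- **Lower bound, arbitrary gates, blow-up.** -/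
theorem lower_blow (t q k m : ℕ) (ht : 3 ≤ t) (hq : 1 ≤ q) (J : Fin m → Type*)
    (T : ∀ w, J w → (Edge (t * (q + 1)) → Bool) → Bool) (hloc : ∀ w j, Reads k (T w j))
    (hT : ∀ x, (graphOf x).IsHamiltonian ↔ ∃ w, ∀ j, T w j x = true) :
    (t - 1)! * ((q + 1) * q) ^ t ≤ 2 * m * k ^ t := by
  classical
  have h1 : t ! * ((q + 1) * q) ^ t ≤ (2 * t) * #((tours t q).image conn) := by
    have := card_le_mul_card_image (f := conn) (tours t q) (2 * t)
      (fun C _ => by convert card_tour_fiber ht C)
    rw [card_tours] at this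
    exact this
  have h2 : #((tours t q).image conn) ≤ m * k ^ t := by
    calc #((tours t q).image conn)
        ≤ #((univ : Finset (Fin m)).biUnion (fun w =>
            {C ∈ (tours t q).image conn | ∀ j, T w j (ind (C ∪ inside t q)) = true})) := by
          apply card_le_card
          intro C hC
          obtain ⟨z, hz, rfl⟩ := mem_image.1 hC
          have hz' : Ok z := by
            have := hz
            rw [tours, mem_filter] at this
            exact this.2
          obtain ⟨w, hw⟩ := (hT _).1 (ham_conn ht hq z hz')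
          rw [mem_biUnion]
          exact ⟨w, mem_univ _, mem_filter.2 ⟨hC, hw⟩⟩
      _ ≤ #(univ : Finset (Fin m)) * k ^ t := by
          apply card_biUnion_le_card_mul
          intro w _
          apply card_accepted_blow ht k (T w) (hloc w)
          intro x hx
          by_contra hno
          push Not at hno
          apply hx
          rw [hT]
          refine ⟨w, fun j => ?_⟩
          have := hno j
          revert this
          cases T w j x <;> simp
      _ = m * k ^ t := by rw [card_univ, Fintype.card_fin]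
  have h3 : t * ((t - 1)! * ((q + 1) * q) ^ t) ≤ t * (2 * m * k ^ t) := by
    rw [← mul_assoc, Nat.mul_factorial_pred (by omega)]
    calc t ! * ((q + 1) * q) ^ t ≤ (2 * t) * #((tours t q).image conn) := h1
      _ ≤ (2 * t) * (m * k ^ t) := Nat.mul_le_mul_left _ h2
      _ = t * (2 * m * k ^ t) := by ring
  exact Nat.le_of_mul_le_mul_left h3 (by omega)

end Pool.Agent.V7H68.Ham
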