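import Mathlib
import Pool.Agent.V7H68.Ham.Blow

/-! The circuit model: an OR of `m` ANDs of gates that read at most `k` inputs each. -/

set_option autoImplicit false

namespace Pool.Agent.V7H68.Ham

/-- Hamiltonicity of graphs on `n` vertices is an OR of `m` ANDs (of any fan-in) of arbitrary gates
each of which reads at most `k` of the `n(n-1)/2` input variables. -/
def OrAnd (n k m : ℕ) : Prop :=
  ∃ (J : Fin m → Type) (T : ∀ w, J w → (Edge n → Bool) → Bool),
    (∀ w j, Reads k (T w j)) ∧
    ∀ x : Edge n → Bool, (graphOf x).IsHamiltonian ↔ ∃ w, ∀ j, T w j x = true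

/-- The same with monotone gates. -/
def OrAndMono (n k m : ℕ) : Prop :=
  ∃ (J : Fin m → Type) (T : ∀ w, J w → (Edge n → Bool) → Bool),
    (∀ w j, Monotone (T w j)) ∧ (∀ w j, Reads k (T w j)) ∧
    ∀ x : Edge n → Bool, (graphOf x).IsHamiltonian ↔ ∃ w, ∀ j, T w j x = true

end Pool.Agent.V7H68.Ham
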