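import Mathlib
import Pool.Agent.V7H68.Ham.Defs

/-!
Hamiltonicity as an OR of ANDs of monotone gates with at most `k` inputs: matching lower and upper
bounds for the number of ANDs.
-/

set_option autoImplicit false

namespace Pool.Agent.V7H68.Ham.MonotoneGates

open Pool.Agent.V7H68.Ham

/-- Lower bound `(n-2)! / k^((n-2)/2)` for all `n` and `k`; upper bound `n! / ((s-1)!)^(n/s)` for
`k = s(s+1)/2` and `n` a multiple of `s`.  The two agree up to a factor `C^n`. -/
theorem mono_bounds :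
    (∀ n k m : ℕ, 3 ≤ n → OrAndMono n k m →
      ((n - 2).factorial) ^ 2 ≤ m ^ 2 * k ^ (n - 2)) ∧
    (∀ t s : ℕ, 1 ≤ s → 3 ≤ t * s → ∃ m : ℕ,
      m * ((s - 1).factorial) ^ t ≤ (t * s).factorial ∧
      OrAndMono (t * s) ((s + 1).choose 2) m) := by
  constructor
  · rintro n k m hn ⟨J, T, hmono, hloc, hT⟩
    exact lower_mono n k m hn J T hmono hloc hT
  · intro t s hs h3
    obtain ⟨q, rfl⟩ : ∃ q, s = q + 1 := ⟨s - 1, by omega⟩
    obtain ⟨m, T, h1, h2, h4, h5⟩ := upper t q h3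
    exact ⟨m, h1, fun _ => Fin t, T, h2, h4, h5⟩

end Pool.Agent.V7H68.Ham.MonotoneGates
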